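import Mathlib
set_option autoImplicit false
open MeasureTheory Polynomial Filter Topology

namespace Pool.Agent.Helper265.WI

/-- trigonometric polynomials of degree at most `M` -/
def TP (M : ℕ) (u : ℝ → ℂ) : Prop :=
  ∃ c : ℤ → ℂ, ∀ t : ℝ, u t = ∑ m ∈ Finset.Icc (-(M : ℤ)) (M : ℤ),
    c m * Complex.exp ((m : ℂ) * (t : ℂ) * Complex.I)

/-- the point `r e^{iθ}` -/
noncomputable def pt (r θ : ℝ) : ℂ := (r : ℂ) * Complex.exp ((θ : ℂ) * Complex.I)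

/-- `L²`-norm on the circle of radius `r` of the part of degree `< N` of the polynomial `q` -/
noncomputable def V (N : ℕ) (r : ℝ) (q : ℂ[X]) : ℝ :=
  Real.sqrt (∑ m ∈ Finset.range N, ‖q.coeff m‖ ^ 2 * r ^ (2 * m))

/-- contraction factor -/
noncomputable def kap : ℝ := Real.sqrt (1 - 1 / (8 * Real.pi))

/-- normalised mean over the circle of radius `r` -/
noncomputable def mean (u : ℝ → ℝ) : ℝ := (1 / (2 * Real.pi)) * ∫ θ in (0:ℝ)..(2 * Real.pi), u θ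

/-- the radii -/
noncomputable def rr (k : ℕ) : ℝ := 1 - (1 / 2) ^ (k + 1)

/-- `ν` is the radial part of a symmetric measure: a finite positive Borel measure on `[0,1]`
with `ν {0} = 0` and `ν [τ,1] > 0` for every `0 ≤ τ < 1`. -/
structure IsRadialPart (ν : Measure ℝ) : Prop where
  finite : ν Set.univ < ⊤
  support : ν (Set.Icc (0:ℝ) 1)ᶜ = 0
  zero : ν {0} = 0
  pos : ∀ τ : ℝ, 0 ≤ τ → τ < 1 → 0 < ν (Set.Icc τ 1)

/-- The integral `∫ |f(τ w)|^p dμ(w) = ∫_{[0,1]} (1/2π) ∫_0^{2π} |f(τ t e^{iθ})|^p dθ dν(t)`,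
for the symmetric measure `dμ(t e^{iθ}) = (2π)⁻¹ dν(t) dθ`. -/
noncomputable def integralPow (p : ℝ) (ν : Measure ℝ) (f : ℂ → ℂ) (τ : ℝ) : ENNReal :=
  ∫⁻ t, (ENNReal.ofReal (1 / (2 * Real.pi)) *
    ∫⁻ θ in Set.Ioc (0:ℝ) (2 * Real.pi),
      ‖f ((τ : ℂ) * ((t : ℂ) * Complex.exp ((θ : ℂ) * Complex.I)))‖ₑ ^ p) ∂ν

/-- `‖f‖_{p,μ} = sup_{0 ≤ τ < 1} (∫ |f(τ w)|^p dμ(w))^{1/p}`, with values in `[0,∞]`. -/
noncomputable def normE (p : ℝ) (ν : Measure ℝ) (f : ℂ → ℂ) : ENNReal :=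
  ⨆ τ ∈ Set.Ico (0:ℝ) 1, (integralPow p ν f τ) ^ (1 / p)

/-- `f ∈ E^p(μ)`. -/
def MemE (p : ℝ) (ν : Measure ℝ) (f : ℂ → ℂ) : Prop :=
  DifferentiableOn ℂ f (Metric.ball 0 1) ∧ normE p ν f < ⊤

/-- `f` is weakly invertible in `E^p(μ)`. -/
def WeaklyInvertible (p : ℝ) (ν : Measure ℝ) (f : ℂ → ℂ) : Prop :=
  MemE p ν f ∧ ∃ P : ℕ → ℂ[X],
    Tendsto (fun n => normE p ν (fun z => (P n).eval z * f z - 1)) atTop (𝓝 0)

/-- the discrete measure `Σ w_k δ_{r_k}` -/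
noncomputable def nu (w : ℕ → ℝ) : Measure ℝ :=
  Measure.sum (fun k => ENNReal.ofReal (w k) • Measure.dirac (rr k))

end Pool.Agent.Helper265.WI
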