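import Mathlib
import Pool.Agent.Helper265.WI.Base
set_option autoImplicit false
open MeasureTheory Polynomial Filter Topology

namespace Pool.Agent.Helper265.WI.Bumps


/-- intermediate predicate -/
def TPQ (M : ℕ) (u : ℝ → ℂ) : Prop :=
  ∃ Q : ℂ[X], Q.natDegree ≤ 2 * M ∧ ∀ t : ℝ, u t =
    Complex.exp (-((M : ℂ) * (t : ℂ) * Complex.I)) * Q.eval (Complex.exp ((t : ℂ) * Complex.I))

theorem TPQ.toTP {M : ℕ} {u : ℝ → ℂ} (h : TPQ M u) : TP M u := by
  obtain ⟨Q, hQ, hu⟩ := h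
  refine ⟨fun m => Q.coeff (m + M).toNat, ?_⟩
  intro t
  rw [hu t, Polynomial.eval_eq_sum_range' (n := 2 * M + 1) (by omega), Finset.mul_sum]
  refine Finset.sum_nbij' (fun i : ℕ => (i : ℤ) - M) (fun m : ℤ => (m + M).toNat) ?_ ?_ ?_ ?_ ?_
  · intro i hi
    rw [Finset.mem_range] at hi
    rw [Finset.mem_Icc]
    constructor <;> omega
  · intro m hm
    rw [Finset.mem_Icc] at hm
    rw [Finset.mem_range]
    omega
  · intro i hi
    simp
  · intro m hm
    rw [Finset.mem_Icc] at hm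
    show (((m + M).toNat : ℕ) : ℤ) - M = m
    omega
  · intro i hi
    show Complex.exp (-((M : ℂ) * (t : ℂ) * Complex.I)) *
      (Q.coeff i * Complex.exp ((t : ℂ) * Complex.I) ^ i) =
      Q.coeff ((i : ℤ) - M + M).toNat *
        Complex.exp ((((i : ℤ) - M : ℤ) : ℂ) * (t : ℂ) * Complex.I)
    have e1 : ((i : ℤ) - M + M).toNat = i := by omega
    have e2 : Complex.exp ((((i : ℤ) - M : ℤ) : ℂ) * (t : ℂ) * Complex.I) =
        Complex.exp (-((M : ℂ) * (t : ℂ) * Complex.I)) *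
          Complex.exp ((t : ℂ) * Complex.I) ^ i := by
      rw [← Complex.exp_nat_mul, ← Complex.exp_add]
      congr 1
      push_cast
      ring
    rw [e1, e2]
    ring

theorem TPQ.const (z : ℂ) : TPQ 0 (fun _ => z) := by
  refine ⟨C z, by simp, ?_⟩
  intro t
  simp

theorem TPQ.mul {M M' : ℕ} {u v : ℝ → ℂ} (hu : TPQ M u) (hv : TPQ M' v) :
    TPQ (M + M') (fun t => u t * v t) := by
  obtain ⟨Q, hQ, hu⟩ := hu
  obtain ⟨Q', hQ', hv⟩ := hv
  refine ⟨Q * Q', ?_, ?_⟩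
  · refine le_trans Polynomial.natDegree_mul_le ?_
    omega
  · intro t
    show u t * v t = _
    rw [hu t, hv t, Polynomial.eval_mul]
    have e : Complex.exp (-(((M + M' : ℕ) : ℂ) * (t : ℂ) * Complex.I)) =
        Complex.exp (-((M : ℂ) * (t : ℂ) * Complex.I)) *
        Complex.exp (-((M' : ℂ) * (t : ℂ) * Complex.I)) := by
      rw [← Complex.exp_add]
      congr 1
      push_cast
      ring
    rw [e]
    ring

theorem TPQ.mono {M M' : ℕ} (h : M ≤ M') {u : ℝ → ℂ} (hu : TPQ M u) : TPQ M' u := by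
  obtain ⟨Q, hQ, hu⟩ := hu
  refine ⟨Q * X ^ (M' - M), ?_, ?_⟩
  · refine le_trans Polynomial.natDegree_mul_le ?_
    rw [Polynomial.natDegree_X_pow]
    omega
  · intro t
    rw [hu t, Polynomial.eval_mul, Polynomial.eval_pow, Polynomial.eval_X]
    have e : Complex.exp (-((M : ℂ) * (t : ℂ) * Complex.I)) =
        Complex.exp (-((M' : ℂ) * (t : ℂ) * Complex.I)) *
        Complex.exp ((t : ℂ) * Complex.I) ^ (M' - M) := by
      rw [← Complex.exp_nat_mul, ← Complex.exp_add]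
      congr 1
      rw [Nat.cast_sub h]
      ring
    rw [e]
    ring

theorem TPQ.add {M : ℕ} {u v : ℝ → ℂ} (hu : TPQ M u) (hv : TPQ M v) :
    TPQ M (fun t => u t + v t) := by
  obtain ⟨Q, hQ, hu⟩ := hu
  obtain ⟨Q', hQ', hv⟩ := hv
  refine ⟨Q + Q', ?_, ?_⟩
  · refine le_trans (Polynomial.natDegree_add_le _ _) ?_
    exact max_le hQ hQ'
  · intro t
    show u t + v t = _
    rw [hu t, hv t, Polynomial.eval_add]
    ring

theorem TPQ.smul {M : ℕ} {u : ℝ → ℂ} (z : ℂ) (hu : TPQ M u) :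
    TPQ M (fun t => z * u t) := by
  have := (TPQ.const z).mul hu
  rw [zero_add] at this
  exact this

theorem TPQ.pow {M : ℕ} {u : ℝ → ℂ} (hu : TPQ M u) (n : ℕ) :
    TPQ (n * M) (fun t => u t ^ n) := by
  induction n with
  | zero =>
    rw [zero_mul]
    have := TPQ.const 1
    refine (?_ : TPQ 0 (fun _ => (1 : ℂ)) → _) this
    intro h
    have e : (fun t => u t ^ 0) = (fun _ => (1 : ℂ)) := by
      funext t
      exact pow_zero _
    rw [e]
    exact h
  | succ n ih =>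
    have := ih.mul hu
    have e : (fun t => u t ^ (n + 1)) = (fun t => u t ^ n * u t) := by
      funext t
      exact pow_succ _ _
    rw [e, show (n + 1) * M = n * M + M by ring]
    exact this

/-- the basic function -/
noncomputable def yy (t : ℝ) : ℝ := (1 - Real.cos t) / 2

theorem yy_nonneg (t : ℝ) : 0 ≤ yy t := by
  unfold yy
  linarith [Real.cos_le_one t]

theorem yy_le_one (t : ℝ) : yy t ≤ 1 := by
  unfold yy
  linarith [Real.neg_one_le_cos t]

theorem yy_cont : Continuous yy := by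
  unfold yy
  fun_prop

theorem TPQ_yy : TPQ 1 (fun t => (yy t : ℂ)) := by
  refine ⟨C (1/2) * X - C (1/4) * X ^ 2 - C (1/4), ?_, ?_⟩
  · compute_degree
  · intro t
    show ((yy t : ℝ) : ℂ) = _
    unfold yy
    simp only [Polynomial.eval_sub, Polynomial.eval_mul, Polynomial.eval_C, Polynomial.eval_X,
      Polynomial.eval_pow]
    push_cast
    rw [Complex.cos]
    have e1 : Complex.exp (-(1 * (t : ℂ) * Complex.I)) * Complex.exp ((t : ℂ) * Complex.I) = 1 := by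
      rw [← Complex.exp_add]
      rw [show -(1 * (t : ℂ) * Complex.I) + (t : ℂ) * Complex.I = 0 by ring, Complex.exp_zero]
    have e2 : -(1 * (t : ℂ) * Complex.I) = -(t : ℂ) * Complex.I := by ring
    rw [e2] at e1 ⊢
    linear_combination (-(1/2 : ℂ) + (1/4) * Complex.exp ((t : ℂ) * Complex.I)) * e1

/-- the basic power -/
noncomputable def gg (m N : ℕ) (t : ℝ) : ℝ := (1 - yy t ^ m) ^ N

theorem gg_cont (m N : ℕ) : Continuous (gg m N) := by
  unfold gg
  have := yy_cont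
  fun_prop

theorem one_sub_nonneg (m : ℕ) (t : ℝ) : 0 ≤ 1 - yy t ^ m := by
  have := pow_le_one₀ (n := m) (yy_nonneg t) (yy_le_one t)
  linarith

theorem one_sub_le (m : ℕ) (t : ℝ) : 1 - yy t ^ m ≤ 1 := by
  have := pow_nonneg (yy_nonneg t) m
  linarith

theorem gg_nonneg (m N : ℕ) (t : ℝ) : 0 ≤ gg m N t := pow_nonneg (one_sub_nonneg m t) N

theorem gg_le_one (m N : ℕ) (t : ℝ) : gg m N t ≤ 1 :=
  pow_le_one₀ (one_sub_nonneg m t) (one_sub_le m t)

theorem gg_ge (m N : ℕ) (t : ℝ) : 1 - N * yy t ^ m ≤ gg m N t := by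
  have h := one_add_mul_le_pow (a := -(yy t ^ m)) (by
    have := one_sub_nonneg m t
    linarith) N
  unfold gg
  have e : 1 + -(yy t ^ m) = 1 - yy t ^ m := by ring
  rw [e] at h
  linarith

theorem gg_le (m N : ℕ) (t : ℝ) : gg m N t * (1 + N * yy t ^ m) ≤ 1 := by
  have h := one_add_mul_le_pow (a := (yy t ^ m)) (by
    have := pow_nonneg (yy_nonneg t) m
    linarith) N
  have h1 : gg m N t * (1 + N * yy t ^ m) ≤ gg m N t * (1 + yy t ^ m) ^ N :=
    mul_le_mul_of_nonneg_left h (gg_nonneg m N t)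
  have h2 : gg m N t * (1 + yy t ^ m) ^ N = (1 - (yy t ^ m) ^ 2) ^ N := by
    unfold gg
    rw [← mul_pow]
    congr 1
    ring
  have h3 : (1 - (yy t ^ m) ^ 2) ^ N ≤ 1 := by
    apply pow_le_one₀
    · have := pow_le_one₀ (n := 2) (pow_nonneg (yy_nonneg t) m)
        (pow_le_one₀ (n := m) (yy_nonneg t) (yy_le_one t))
      linarith
    · have := sq_nonneg (yy t ^ m)
      linarith
  linarith

theorem TPQ_gg (m N : ℕ) : TPQ (N * m) (fun t => (gg m N t : ℂ)) := by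
  have h1 : TPQ (m * 1) (fun t => (yy t : ℂ) ^ m) := TPQ_yy.pow m
  rw [mul_one] at h1
  have h2 : TPQ m (fun t => (1 : ℂ) + (-1 : ℂ) * (yy t : ℂ) ^ m) :=
    ((TPQ.const 1).mono (Nat.zero_le m)).add (h1.smul (-1))
  have h3 := h2.pow N
  have e : (fun t => (gg m N t : ℂ)) = (fun t => ((1 : ℂ) + (-1 : ℂ) * (yy t : ℂ) ^ m) ^ N) := by
    funext t
    unfold gg
    push_cast
    congr 1
    ring
  rw [e]
  exact h3

theorem cos_le_half {t : ℝ} (h1 : Real.pi / 3 ≤ t) (h2 : t ≤ 5 * Real.pi / 3) :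
    Real.cos t ≤ 1 / 2 := by
  have hpi := Real.pi_pos
  have e1 : Real.cos t = - Real.cos (|t - Real.pi|) := by
    rw [Real.cos_abs, Real.cos_sub_pi, neg_neg]
  have h3 : |t - Real.pi| ≤ 2 * Real.pi / 3 := by
    rw [abs_le]
    constructor <;> linarith
  have h4 : Real.cos (2 * Real.pi / 3) ≤ Real.cos (|t - Real.pi|) := by
    apply Real.cos_le_cos_of_nonneg_of_le_pi (abs_nonneg _) _ h3
    linarith
  have h5 : Real.cos (2 * Real.pi / 3) = - (1 / 2) := by
    rw [show 2 * Real.pi / 3 = Real.pi - Real.pi / 3 by ring, Real.cos_pi_sub,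
      Real.cos_pi_div_three]
  rw [e1]
  linarith

/-- lower bound for an integral over the circle -/
theorem int_lower (f : ℝ → ℝ) (hf : Continuous f) (h0 : ∀ t, 0 ≤ f t) (p q c : ℝ)
    (hp : 0 ≤ p) (hpq : p ≤ q) (hq : q ≤ 2 * Real.pi) (hc : ∀ t ∈ Set.Icc p q, c ≤ f t) :
    (q - p) * c ≤ ∫ t in (0:ℝ)..(2 * Real.pi), f t := by
  have h1 : (∫ t in p..q, f t) ≤ ∫ t in (0:ℝ)..(2 * Real.pi), f t := by
    apply intervalIntegral.integral_mono_interval hp hpq hq
    · exact Filter.Eventually.of_forall (fun t => h0 t)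
    · exact hf.intervalIntegrable _ _
  have h2 : (∫ t in p..q, c) ≤ ∫ t in p..q, f t := by
    apply intervalIntegral.integral_mono_on hpq
    · exact intervalIntegrable_const
    · exact hf.intervalIntegrable _ _
    · exact hc
  rw [intervalIntegral.integral_const, smul_eq_mul] at h2
  linarith

/-- TARGET. Plateau functions that are trigonometric polynomials. -/
theorem exists_bumps (η : ℝ) (hη : 0 < η) :
    ∃ (M : ℕ) (χ a : ℝ → ℝ), TP M (fun t => (χ t : ℂ)) ∧ TP M (fun t => (a t : ℂ)) ∧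
      (∫ t in (0:ℝ)..(2 * Real.pi), χ t) = 0 ∧ (∀ t, -(3/4) ≤ χ t ∧ χ t ≤ 1) ∧
      (∀ t, 0 ≤ a t ∧ a t ≤ 1) ∧ 1/4 ≤ (∫ t in (0:ℝ)..(2 * Real.pi), a t) ∧
      ∀ t, 1 - η ≤ χ t ∨ a t ≤ η := by
  have hpi := Real.pi_pos
  have hpi3 := Real.pi_gt_three
  -- choose m
  obtain ⟨m, hm1, hm2⟩ : ∃ m : ℕ, (3/4 : ℝ) ^ m ≤ min (4/7 * η) (1/2) ∧
      max 6 (1/η) ≤ (3/2 : ℝ) ^ m := by
    have t1 : Tendsto (fun m : ℕ => (3/4 : ℝ) ^ m) atTop (𝓝 0) :=
      tendsto_pow_atTop_nhds_zero_of_lt_one (by norm_num) (by norm_num)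
    have t2 : Tendsto (fun m : ℕ => (3/2 : ℝ) ^ m) atTop atTop :=
      tendsto_pow_atTop_atTop_of_one_lt (by norm_num)
    have e1 : ∀ᶠ m : ℕ in atTop, (3/4 : ℝ) ^ m ≤ min (4/7 * η) (1/2) := by
      apply t1.eventually_le_const
      apply lt_min
      · positivity
      · norm_num
    have e2 : ∀ᶠ m : ℕ in atTop, max 6 (1/η) ≤ (3/2 : ℝ) ^ m := t2.eventually_ge_atTop _
    obtain ⟨m, hm⟩ := (e1.and e2).exists
    exact ⟨m, hm.1, hm.2⟩
  have hA1 : (3/4 : ℝ) ^ m ≤ 4/7 * η := le_trans hm1 (min_le_left _ _)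
  have hA2 : (3/4 : ℝ) ^ m ≤ 1/2 := le_trans hm1 (min_le_right _ _)
  have hB1 : 6 ≤ (3/2 : ℝ) ^ m := le_trans (le_max_left _ _) hm2
  have hB2 : 1/η ≤ (3/2 : ℝ) ^ m := le_trans (le_max_right _ _) hm2
  -- pointwise bounds
  have b1 : ∀ t, yy t ≤ 1/8 → 1 - gg m (6 ^ m) t ≤ (3/4 : ℝ) ^ m := by
    intro t ht
    have h := gg_ge m (6 ^ m) t
    have h2 : ((6 ^ m : ℕ) : ℝ) * yy t ^ m ≤ (3/4 : ℝ) ^ m := by
      push_cast
      rw [← mul_pow]
      apply pow_le_pow_left₀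
      · have := yy_nonneg t
        positivity
      · linarith
    linarith
  have b2 : ∀ t, 1/4 ≤ yy t → 6/7 ≤ 1 - gg m (6 ^ m) t := by
    intro t ht
    have h := gg_le m (6 ^ m) t
    have h2 : (3/2 : ℝ) ^ m ≤ ((6 ^ m : ℕ) : ℝ) * yy t ^ m := by
      push_cast
      rw [← mul_pow]
      apply pow_le_pow_left₀
      · norm_num
      · linarith
    have h3 : gg m (6 ^ m) t * 7 ≤ gg m (6 ^ m) t * (1 + ((6 ^ m : ℕ) : ℝ) * yy t ^ m) :=
      mul_le_mul_of_nonneg_left (by linarith) (gg_nonneg _ _ _)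
    linarith
  have b3 : ∀ t, 1/8 ≤ yy t → gg m (12 ^ m) t ≤ η := by
    intro t ht
    have h := gg_le m (12 ^ m) t
    have h2 : (3/2 : ℝ) ^ m ≤ ((12 ^ m : ℕ) : ℝ) * yy t ^ m := by
      push_cast
      rw [← mul_pow]
      apply pow_le_pow_left₀
      · norm_num
      · linarith
    have h3 : gg m (12 ^ m) t * (1/η) ≤ gg m (12 ^ m) t * (1 + ((12 ^ m : ℕ) : ℝ) * yy t ^ m) :=
      mul_le_mul_of_nonneg_left (by linarith) (gg_nonneg _ _ _)
    have h4 : gg m (12 ^ m) t * (1/η) ≤ 1 := by linarith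
    rw [mul_one_div, div_le_one hη] at h4
    exact h4
  have b4 : ∀ t ∈ Set.Icc (0:ℝ) (1/2), 1/2 ≤ gg m (12 ^ m) t := by
    intro t ht
    have h := gg_ge m (12 ^ m) t
    have hy : yy t ≤ 1/16 := by
      have := Real.one_sub_sq_div_two_le_cos (x := t)
      unfold yy
      nlinarith [ht.1, ht.2]
    have h2 : ((12 ^ m : ℕ) : ℝ) * yy t ^ m ≤ (3/4 : ℝ) ^ m := by
      push_cast
      rw [← mul_pow]
      apply pow_le_pow_left₀
      · have := yy_nonneg t
        positivity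
      · linarith
    linarith
  -- the integral of R
  obtain ⟨μ, hμ⟩ : ∃ μ : ℝ, μ = (1 / (2 * Real.pi)) *
      ∫ t in (0:ℝ)..(2 * Real.pi), (1 - gg m (6 ^ m) t) := ⟨_, rfl⟩
  have hRc : Continuous (fun t => 1 - gg m (6 ^ m) t) := by
    have := gg_cont m (6 ^ m)
    fun_prop
  have hint : (8 * Real.pi / 7) ≤ ∫ t in (0:ℝ)..(2 * Real.pi), (1 - gg m (6 ^ m) t) := by
    have := int_lower (fun t => 1 - gg m (6 ^ m) t) hRc
      (fun t => by
        show 0 ≤ 1 - gg m (6 ^ m) t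
        linarith [gg_le_one m (6 ^ m) t])
      (Real.pi / 3) (5 * Real.pi / 3) (6/7) (by positivity) (by linarith) (by linarith)
      (fun t ht => by
        apply b2 t
        have := cos_le_half ht.1 ht.2
        unfold yy
        linarith)
    refine le_trans (le_of_eq ?_) this
    ring
  have hμ1 : 4/7 ≤ μ := by
    rw [hμ]
    have h1 : (1 / (2 * Real.pi)) * (8 * Real.pi / 7) ≤ (1 / (2 * Real.pi)) *
      ∫ t in (0:ℝ)..(2 * Real.pi), (1 - gg m (6 ^ m) t) :=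
      mul_le_mul_of_nonneg_left hint (by positivity)
    refine le_trans (le_of_eq ?_) h1
    field_simp
    norm_num
  have hμ0 : 0 < μ := by linarith
  have hμ2 : ∫ t in (0:ℝ)..(2 * Real.pi), (1 - gg m (6 ^ m) t) = 2 * Real.pi * μ := by
    rw [hμ]
    field_simp
  have hμinv : 1 / μ ≤ 7/4 := by
    rw [div_le_iff₀ hμ0]
    linarith
  have hμinv0 : 0 ≤ 1/μ := by positivity
  refine ⟨12 ^ m * m, fun t => 1 - (1/μ) * (1 - gg m (6 ^ m) t), gg m (12 ^ m), ?_, ?_, ?_, ?_, ?_,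
    ?_, ?_⟩
  · apply TPQ.toTP
    have h1 : TPQ (12 ^ m * m) (fun t => (gg m (6 ^ m) t : ℂ)) :=
      (TPQ_gg m (6 ^ m)).mono (Nat.mul_le_mul_right m (Nat.pow_le_pow_left (by norm_num) m))
    have h2 : TPQ (12 ^ m * m) (fun t => (1 - 1/(μ : ℂ)) + (1/(μ:ℂ)) * (gg m (6 ^ m) t : ℂ)) :=
      ((TPQ.const (1 - 1/(μ : ℂ))).mono (Nat.zero_le _)).add (h1.smul (1/(μ:ℂ)))
    have e : (fun t : ℝ => ((1 - (1/μ) * (1 - gg m (6 ^ m) t) : ℝ) : ℂ)) =
        (fun t => (1 - 1/(μ : ℂ)) + (1/(μ:ℂ)) * (gg m (6 ^ m) t : ℂ)) := by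
      funext t
      push_cast
      ring
    rw [e]
    exact h2
  · exact (TPQ_gg m (12 ^ m)).toTP
  · show ∫ t in (0:ℝ)..(2 * Real.pi), (1 - (1/μ) * (1 - gg m (6 ^ m) t)) = 0
    have hc2 : Continuous (fun t => (1/μ) * (1 - gg m (6 ^ m) t)) := continuous_const.mul hRc
    rw [intervalIntegral.integral_sub intervalIntegrable_const (hc2.intervalIntegrable _ _),
      intervalIntegral.integral_const_mul, hμ2, intervalIntegral.integral_const, smul_eq_mul]
    field_simp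
    ring
  · intro t
    have h1 := gg_nonneg m (6 ^ m) t
    have h2 := gg_le_one m (6 ^ m) t
    constructor
    · have h3 : (1/μ) * (1 - gg m (6 ^ m) t) ≤ (1/μ) * 1 :=
        mul_le_mul_of_nonneg_left (by linarith) hμinv0
      show -(3/4) ≤ 1 - (1/μ) * (1 - gg m (6 ^ m) t)
      linarith
    · have h3 : 0 ≤ (1/μ) * (1 - gg m (6 ^ m) t) := mul_nonneg hμinv0 (by linarith)
      show 1 - (1/μ) * (1 - gg m (6 ^ m) t) ≤ 1
      linarith
  · intro t
    exact ⟨gg_nonneg _ _ _, gg_le_one _ _ _⟩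
  · have := int_lower (gg m (12 ^ m)) (gg_cont _ _) (gg_nonneg _ _) 0 (1/2) (1/2) le_rfl
      (by norm_num) (by linarith) b4
    linarith
  · intro t
    rcases le_total (yy t) (1/8) with h | h
    · left
      have h1 := b1 t h
      have h2 : 0 ≤ 1 - gg m (6 ^ m) t := by linarith [gg_le_one m (6 ^ m) t]
      have h3 : (1/μ) * (1 - gg m (6 ^ m) t) ≤ (7/4) * (1 - gg m (6 ^ m) t) :=
        mul_le_mul_of_nonneg_right hμinv h2
      show 1 - η ≤ 1 - (1/μ) * (1 - gg m (6 ^ m) t)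
      linarith
    · right
      exact b3 t h

end Pool.Agent.Helper265.WI.Bumps
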