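import Mathlib
import Pool.Agent.Helper265.WI.Base
set_option autoImplicit false
open MeasureTheory Polynomial Filter Topology

namespace Pool.Agent.Helper265.WI.Dense


theorem poly_dense_taylor (F : ℂ → ℂ) (R : NNReal) (hR : 1 < R)
    (hF : DifferentiableOn ℂ F (Metric.closedBall 0 R)) (δ : ℝ) (hδ : 0 < δ) :
    ∃ P : ℂ[X], ∀ z : ℂ, ‖z‖ ≤ 1 → ‖P.eval z - F z‖ ≤ δ := by
  have h1 := hF.hasFPowerSeriesOnBall (lt_trans one_pos hR)
  obtain ⟨r', hr1, hr2⟩ := exists_between hR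
  have h2 := h1.tendstoUniformlyOn (r' := r') (by exact_mod_cast hr2)
  rw [Metric.tendstoUniformlyOn_iff] at h2
  obtain ⟨n, hn⟩ := (h2 δ hδ).exists
  refine ⟨∑ k ∈ Finset.range n, C ((cauchyPowerSeries F 0 R).coeff k) * X ^ k, ?_⟩
  intro z hz
  have hz' : z ∈ Metric.ball (0 : ℂ) r' := by
    rw [mem_ball_zero_iff]
    have : (1 : ℝ) < r' := by exact_mod_cast hr1
    linarith
  have h3 := hn z hz'
  rw [zero_add, dist_comm, dist_eq_norm] at h3
  have h4 : eval z (∑ k ∈ Finset.range n, C ((cauchyPowerSeries F 0 R).coeff k) * X ^ k) =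
      (cauchyPowerSeries F 0 R).partialSum n z := by
    rw [eval_finsetSum, FormalMultilinearSeries.partialSum]
    apply Finset.sum_congr rfl
    intro k _
    rw [FormalMultilinearSeries.apply_eq_pow_smul_coeff]
    simp only [eval_mul, eval_C, eval_pow, eval_X, smul_eq_mul]
    ring
  rw [h4]
  exact h3.le

theorem poly_dense_rr (k : ℕ) : 0 ≤ rr k ∧ rr k < 1 := by
  have h1 : (0 : ℝ) < (1 / 2) ^ (k + 1) := by positivity
  have h2 : ((1 : ℝ) / 2) ^ (k + 1) ≤ 1 := pow_le_one₀ (by norm_num) (by norm_num)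
  unfold rr
  constructor <;> linarith

theorem poly_dense_rr_mono {k l : ℕ} (h : k ≤ l) : rr k ≤ rr l := by
  unfold rr
  have : ((1 : ℝ) / 2) ^ (l + 1) ≤ (1 / 2) ^ (k + 1) :=
    pow_le_pow_of_le_one (by norm_num) (by norm_num) (by omega)
  linarith

theorem poly_dense_dil (G : ℂ → ℂ) (hG : DifferentiableOn ℂ G (Metric.ball 0 1)) (r : ℝ)
    (hr : r < 1) (δ : ℝ) (hδ : 0 < δ) :
    ∃ τ : ℝ, 0 < τ ∧ τ < 1 ∧ ∀ z : ℂ, ‖z‖ ≤ r → ‖G (τ * z) - G z‖ ≤ δ := by
  have hc : ContinuousOn G (Metric.closedBall 0 r) :=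
    hG.continuousOn.mono (Metric.closedBall_subset_ball hr)
  have hu := (isCompact_closedBall (0 : ℂ) r).uniformContinuousOn_of_continuous hc
  rw [Metric.uniformContinuousOn_iff] at hu
  obtain ⟨η, hη, h⟩ := hu δ hδ
  refine ⟨max (1 / 2) (1 - η / 2), lt_max_of_lt_left (by norm_num),
    max_lt (by norm_num) (by linarith), ?_⟩
  intro z hz
  set τ : ℝ := max (1 / 2) (1 - η / 2) with hτ
  have hτ0 : 0 < τ := lt_max_of_lt_left (by norm_num)
  have hτ1 : τ < 1 := max_lt (by norm_num) (by linarith)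
  have hτ2 : 1 - η / 2 ≤ τ := le_max_right _ _
  have e1 : ‖(τ : ℂ) * z‖ = τ * ‖z‖ := by
    rw [norm_mul, Complex.norm_real, Real.norm_of_nonneg hτ0.le]
  have e2 : ‖(τ : ℂ) * z‖ ≤ r := by
    rw [e1]
    nlinarith [norm_nonneg z]
  have e3 : dist ((τ : ℂ) * z) z < η := by
    rw [dist_eq_norm]
    have e4 : (τ : ℂ) * z - z = ((τ - 1 : ℝ) : ℂ) * z := by push_cast; ring
    rw [e4, norm_mul, Complex.norm_real, Real.norm_eq_abs, abs_of_nonpos (by linarith)]
    nlinarith [norm_nonneg z]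
  have := h _ (by rwa [mem_closedBall_zero_iff]) _ (by rwa [mem_closedBall_zero_iff]) e3
  rw [dist_eq_norm] at this
  exact this.le

theorem poly_dense (G : ℂ → ℂ) (hG : DifferentiableOn ℂ G (Metric.ball 0 1)) (w B : ℕ → ℝ)
    (hw : ∀ k, 0 ≤ w k) (hsum : Summable w)
    (hB : ∀ k, ∀ z : ℂ, ‖z‖ ≤ rr k → ‖G z‖ ≤ B k)
    (hsB : Summable (fun k => w k * (B k) ^ 2)) (ε : ℝ) (hε : 0 < ε) :
    ∃ (P : ℂ[X]) (c : ℕ → ℝ), (∀ k, 0 ≤ c k) ∧
      (∀ k, ∀ z : ℂ, ‖z‖ ≤ rr k → ‖P.eval z - G z‖ ≤ c k) ∧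
      Summable (fun k => w k * (c k) ^ 2) ∧ ∑' k, w k * (c k) ^ 2 ≤ ε := by
  have hB0 : ∀ k, 0 ≤ B k := fun k =>
    (norm_nonneg _).trans (hB k 0 (by rw [norm_zero]; exact (poly_dense_rr k).1))
  set W : ℝ := ∑' k, w k with hWdef
  have hW : 0 ≤ W := tsum_nonneg hw
  set δ : ℝ := Real.sqrt (ε / (8 * (W + 1))) with hδdef
  have hδ : 0 < δ := Real.sqrt_pos.2 (by positivity)
  have hδ2 : δ ^ 2 * W ≤ ε / 8 := by
    rw [hδdef, Real.sq_sqrt (by positivity)]
    rw [div_mul_eq_mul_div, div_le_div_iff₀ (by positivity) (by norm_num)]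
    nlinarith
  set f : ℕ → ℝ := fun k => w k * (2 * B k) ^ 2 with hf
  have hfs : Summable f := by
    have : f = fun k => 4 * (w k * (B k) ^ 2) := by
      funext k
      rw [hf]
      ring
    rw [this]
    exact hsB.mul_left 4
  have hf0 : ∀ k, 0 ≤ f k := fun k => mul_nonneg (hw k) (sq_nonneg _)
  obtain ⟨K, hK⟩ : ∃ K : ℕ, ∑' k, f (k + K) < ε / 8 :=
    ((tendsto_sum_nat_add f).eventually (gt_mem_nhds (by positivity))).exists
  obtain ⟨τ, hτ0, hτ1, hτ⟩ := poly_dense_dil G hG (rr K) (poly_dense_rr K).2 δ hδ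
  obtain ⟨R', hR1, hR2⟩ := exists_between ((one_lt_div hτ0).2 hτ1)
  obtain ⟨R, rfl⟩ : ∃ R : NNReal, (R : ℝ) = R' := ⟨⟨R', by linarith⟩, rfl⟩
  have hR2' : τ * R < 1 := by
    rw [lt_div_iff₀ hτ0] at hR2
    linarith
  have hF : DifferentiableOn ℂ (fun z => G (τ * z)) (Metric.closedBall 0 R) := by
    apply hG.comp (by fun_prop)
    intro z hz
    rw [mem_closedBall_zero_iff] at hz
    rw [mem_ball_zero_iff, norm_mul, Complex.norm_real, Real.norm_of_nonneg hτ0.le]
    nlinarith [norm_nonneg z]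
  obtain ⟨P, hP⟩ := poly_dense_taylor _ R (by exact_mod_cast hR1) hF δ hδ
  refine ⟨P, fun k => (if k < K then δ else 2 * B k) + δ, ?_, ?_, ?_⟩
  · intro k
    have hk0 := hB0 k
    show 0 ≤ (if k < K then δ else 2 * B k) + δ
    split_ifs
    · positivity
    · positivity
  · intro k z hz
    have hz1 : ‖z‖ ≤ 1 := hz.trans (poly_dense_rr k).2.le
    have h1 := hP z hz1
    have h2 : ‖G (τ * z) - G z‖ ≤ if k < K then δ else 2 * B k := by
      split_ifs with hk
      · exact hτ z (hz.trans (poly_dense_rr_mono hk.le))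
      · have e1 : ‖(τ : ℂ) * z‖ ≤ rr k := by
          rw [norm_mul, Complex.norm_real, Real.norm_of_nonneg hτ0.le]
          nlinarith [norm_nonneg z]
        have e2 := hB k _ e1
        have e3 := hB k _ hz
        have e4 := norm_sub_le (G (τ * z)) (G z)
        linarith
    calc ‖P.eval z - G z‖ = ‖(G (τ * z) - G z) + (P.eval z - G (τ * z))‖ := by
          congr 1
          ring
      _ ≤ ‖G (τ * z) - G z‖ + ‖P.eval z - G (τ * z)‖ := norm_add_le _ _
      _ ≤ _ := add_le_add h2 h1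
  · set g : ℕ → ℝ := fun k => if k < K then 0 else f k with hg
    have hg0 : ∀ k, 0 ≤ g k := by
      intro k
      rw [hg]
      simp only
      split_ifs
      · exact le_rfl
      · exact hf0 k
    have hgf : ∀ k, g k ≤ f k := by
      intro k
      rw [hg]
      simp only
      split_ifs
      · exact hf0 k
      · exact le_rfl
    have hgs : Summable g := Summable.of_nonneg_of_le hg0 hgf hfs
    have hgt : ∑' k, g k < ε / 8 := by
      rw [← hgs.sum_add_tsum_nat_add K]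
      have h1 : ∑ i ∈ Finset.range K, g i = 0 := by
        apply Finset.sum_eq_zero
        intro i hi
        rw [hg]
        simp only
        rw [if_pos (Finset.mem_range.1 hi)]
      have h2 : (fun i => g (i + K)) = fun i => f (i + K) := by
        funext i
        rw [hg]
        simp only
        rw [if_neg (by omega)]
      rw [h1, zero_add, h2]
      exact hK
    have hmain : ∀ k, w k * ((if k < K then δ else 2 * B k) + δ) ^ 2 ≤
        4 * δ ^ 2 * w k + 2 * g k := by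
      intro k
      rw [hg]
      simp only
      have hwk := hw k
      split_ifs with hk
      · nlinarith [mul_nonneg hwk (sq_nonneg δ)]
      · rw [hf]
        simp only
        have e1 : (2 * B k + δ) ^ 2 ≤ 4 * δ ^ 2 + 2 * (2 * B k) ^ 2 := by
          nlinarith [sq_nonneg (2 * B k - δ), sq_nonneg δ]
        have e2 := mul_le_mul_of_nonneg_left e1 hwk
        linarith
    have hnn : ∀ k, 0 ≤ w k * ((if k < K then δ else 2 * B k) + δ) ^ 2 :=
      fun k => mul_nonneg (hw k) (sq_nonneg _)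
    have hs2 : Summable fun k => 4 * δ ^ 2 * w k + 2 * g k :=
      (hsum.mul_left _).add (hgs.mul_left _)
    have hs1 : Summable fun k => w k * ((if k < K then δ else 2 * B k) + δ) ^ 2 :=
      Summable.of_nonneg_of_le hnn hmain hs2
    refine ⟨hs1, ?_⟩
    calc ∑' k, w k * ((if k < K then δ else 2 * B k) + δ) ^ 2
        ≤ ∑' k, (4 * δ ^ 2 * w k + 2 * g k) := hs1.tsum_le_tsum hmain hs2
      _ = 4 * δ ^ 2 * W + 2 * ∑' k, g k := by
          rw [(hsum.mul_left _).tsum_add (hgs.mul_left _), tsum_mul_left, tsum_mul_left]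
      _ ≤ ε := by nlinarith

end Pool.Agent.Helper265.WI.Dense
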