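import Mathlib
import Pool.Agent.Helper265.WI.Base
set_option autoImplicit false
open MeasureTheory Polynomial Filter Topology

namespace Pool.Agent.Helper265.WI.EvalBound


theorem kap_nonneg : 0 ≤ kap := Real.sqrt_nonneg _

theorem kap_lt_one : kap < 1 := by
  unfold kap
  rw [Real.sqrt_lt' one_pos]
  have : 0 < 1 / (8 * Real.pi) := by positivity
  linarith

theorem norm_pt (r θ : ℝ) (hr : 0 ≤ r) : ‖pt r θ‖ = r := by
  unfold pt
  rw [norm_mul, Complex.norm_exp_ofReal_mul_I, mul_one, Complex.norm_real, Real.norm_eq_abs, abs_of_nonneg hr]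

theorem rr_bd (k : ℕ) : 0 ≤ rr k ∧ rr k < 1 ∧ rr k ≤ rr (k + 1) := by
  unfold rr
  have h1 : (0:ℝ) < (1/2) ^ (k+1) := by positivity
  have h2 : ((1:ℝ)/2) ^ (k+1) ≤ 1 := pow_le_one₀ (by norm_num) (by norm_num)
  have h3 : ((1:ℝ)/2) ^ (k+1+1) = (1/2) ^ (k+1) * (1/2) := pow_succ _ _
  refine ⟨by linarith, by linarith, ?_⟩
  rw [h3]
  linarith

theorem V_mono (n : ℕ) (r r' : ℝ) (q : ℂ[X]) (h0 : 0 ≤ r) (h : r ≤ r') : V n r q ≤ V n r' q := by
  unfold V
  apply Real.sqrt_le_sqrt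
  apply Finset.sum_le_sum
  intro m _
  exact mul_le_mul_of_nonneg_left (pow_le_pow_left₀ h0 h _) (by positivity)

theorem V_le (n : ℕ) (r : ℝ) (q : ℂ[X]) (h0 : 0 ≤ r) (h1 : r ≤ 1) :
    V n r q ≤ Real.sqrt (∑ m ∈ Finset.range (q.natDegree + 1), ‖q.coeff m‖ ^ 2) := by
  unfold V
  apply Real.sqrt_le_sqrt
  calc ∑ m ∈ Finset.range n, ‖q.coeff m‖ ^ 2 * r ^ (2 * m)
      ≤ ∑ m ∈ Finset.range n, ‖q.coeff m‖ ^ 2 := by
        apply Finset.sum_le_sum
        intro m _
        have : r ^ (2 * m) ≤ 1 := pow_le_one₀ h0 h1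
        nlinarith [sq_nonneg ‖q.coeff m‖]
    _ ≤ ∑ m ∈ Finset.range (max n (q.natDegree + 1)), ‖q.coeff m‖ ^ 2 := by
        apply Finset.sum_le_sum_of_subset_of_nonneg
        · exact Finset.range_subset_range.2 (le_max_left _ _)
        · intro m _ _; positivity
    _ = ∑ m ∈ Finset.range (q.natDegree + 1), ‖q.coeff m‖ ^ 2 := by
        symm
        apply Finset.sum_subset
        · exact Finset.range_subset_range.2 (le_max_right _ _)
        · intro m _ hm
          rw [Finset.mem_range, not_lt] at hm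
          rw [Polynomial.coeff_eq_zero_of_natDegree_lt (by omega)]
          simp

theorem mean_mono {u v : ℝ → ℝ} (hu : Continuous u) (hv : Continuous v) (h : ∀ θ, u θ ≤ v θ) :
    mean u ≤ mean v := by
  unfold mean
  apply mul_le_mul_of_nonneg_left _ (by positivity)
  exact intervalIntegral.integral_mono_on (by positivity) (hu.intervalIntegrable _ _)
    (hv.intervalIntegrable _ _) (fun x _ => h x)

theorem mean_smul (c : ℝ) (u : ℝ → ℝ) : mean (fun θ => c * u θ) = c * mean u := by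
  unfold mean
  rw [intervalIntegral.integral_const_mul]
  ring

theorem mean_nonneg {u : ℝ → ℝ} (h : ∀ θ, 0 ≤ u θ) : 0 ≤ mean u := by
  unfold mean
  apply mul_nonneg (by positivity)
  exact intervalIntegral.integral_nonneg (by positivity) (fun x _ => h x)

theorem geo_le (K : ℕ) : ∑ k ∈ Finset.range K, kap ^ k ≤ 1 / (1 - kap) := by
  have h1 : 0 < 1 - kap := by have := kap_lt_one; linarith
  rw [le_div_iff₀ h1, geom_sum_mul_neg]
  have : 0 ≤ kap ^ K := pow_nonneg kap_nonneg _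
  linarith

/-- TARGET. Evaluation at `0` is bounded by the weighted norm of `q e^F`. -/
theorem eval_bound (F : ℂ → ℂ) (hF : DifferentiableOn ℂ F (Metric.ball 0 1))
    (Φ : ℕ → ℂ[X]) (lam : ℕ → ℝ) (a : ℕ → ℝ → ℝ) (N : ℕ → ℕ) (hN : N 0 = 1)
    (ha : ∀ k, Continuous (a k))
    (hclose : ∀ k, ∀ z : ℂ, ‖z‖ ≤ rr k → ‖F z - (Φ (k + 1)).eval z‖ ≤ 1)
    (hexp : ∀ k, ∀ θ : ℝ, (a k θ) ^ 2 * Real.exp (2 * lam k) ≤
        Real.exp 2 * Real.exp (2 * ((Φ (k + 1)).eval (pt (rr k) θ)).re))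
    (hV : ∀ k, ∀ q : ℂ[X], V (N k) (rr k) q ≤
        Real.sqrt (mean (fun θ => (a k θ) ^ 2 * ‖q.eval (pt (rr k) θ)‖ ^ 2))
          + kap * V (N (k + 1)) (rr k) q)
    (q : ℂ[X]) (S : ℝ)
    (hS : ∀ K : ℕ, ∑ k ∈ Finset.range K, kap ^ k * Real.exp (-2 * lam k) *
      mean (fun θ => ‖q.eval (pt (rr k) θ) * Complex.exp (F (pt (rr k) θ))‖ ^ 2) ≤ S) :
    ‖q.eval 0‖ ≤ Real.exp 2 * Real.sqrt (S / (1 - kap)) := by
  obtain ⟨s, hs⟩ : ∃ s : ℕ → ℝ, s = fun k =>
    Real.sqrt (mean (fun θ => (a k θ) ^ 2 * ‖q.eval (pt (rr k) θ)‖ ^ 2)) := ⟨_, rfl⟩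
  have hs0 : ∀ k, 0 ≤ s k := by intro k; rw [hs]; exact Real.sqrt_nonneg _
  have hk0 := kap_nonneg
  have hk1 := kap_lt_one
  have hk1' : 0 < 1 - kap := by linarith
  -- step 1
  have e1 : ‖q.eval 0‖ = V (N 0) (rr 0) q := by
    rw [hN]
    unfold V
    rw [Finset.sum_range_one, ← Polynomial.coeff_zero_eq_eval_zero]
    simp
  -- step 2
  have e2 : ∀ K, V (N 0) (rr 0) q ≤ (∑ k ∈ Finset.range K, kap ^ k * s k) + kap ^ K * V (N K) (rr K) q := by
    intro K
    induction K with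
    | zero => simp
    | succ K ih =>
      refine ih.trans ?_
      rw [Finset.sum_range_succ]
      have h1 := hV K q
      have h2 := V_mono (N (K + 1)) (rr K) (rr (K + 1)) q (rr_bd K).1 (rr_bd K).2.2
      have h3 : V (N K) (rr K) q ≤ s K + kap * V (N (K + 1)) (rr (K + 1)) q := by
        rw [hs]
        refine h1.trans ?_
        have := mul_le_mul_of_nonneg_left h2 hk0
        linarith
      have h4 := mul_le_mul_of_nonneg_left h3 (pow_nonneg hk0 K)
      have h5 : kap ^ K * (s K + kap * V (N (K + 1)) (rr (K + 1)) q) =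
        kap ^ K * s K + kap ^ (K + 1) * V (N (K + 1)) (rr (K + 1)) q := by ring
      linarith
  -- step 4
  have hptc : ∀ r, Continuous (fun θ => pt r θ) := by
    intro r
    unfold pt
    fun_prop
  have hFc : ∀ k, Continuous (fun θ => F (pt (rr k) θ)) := by
    intro k
    refine hF.continuousOn.comp_continuous (hptc _) ?_
    intro θ
    rw [Metric.mem_ball, dist_zero_right, norm_pt _ _ (rr_bd k).1]
    exact (rr_bd k).2.1
  have hqc : ∀ k, Continuous (fun θ => q.eval (pt (rr k) θ)) := fun k => q.continuous.comp (hptc _)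
  have e4 : ∀ k, (s k) ^ 2 ≤ Real.exp 4 * (Real.exp (-2 * lam k) *
      mean (fun θ => ‖q.eval (pt (rr k) θ) * Complex.exp (F (pt (rr k) θ))‖ ^ 2)) := by
    intro k
    rw [hs]
    simp only []
    rw [Real.sq_sqrt (mean_nonneg (fun θ => by positivity)), ← mul_assoc, ← mean_smul]
    apply mean_mono
    · exact ((ha k).pow 2).mul ((hqc k).norm.pow 2)
    · exact continuous_const.mul (((hqc k).mul (Complex.continuous_exp.comp (hFc k))).norm.pow 2)
    · intro θ
      have h1 := hexp k θ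
      have h2 := hclose k (pt (rr k) θ) (norm_pt _ _ (rr_bd k).1).le
      have h3 : ((Φ (k + 1)).eval (pt (rr k) θ)).re ≤ (F (pt (rr k) θ)).re + 1 := by
        have h4 := (Complex.abs_re_le_norm (F (pt (rr k) θ) - (Φ (k + 1)).eval (pt (rr k) θ))).trans h2
        rw [Complex.sub_re, abs_le] at h4
        linarith [h4.1]
      have h5 : (a k θ) ^ 2 * Real.exp (2 * lam k) ≤ Real.exp (4 + 2 * (F (pt (rr k) θ)).re) := by
        refine h1.trans ?_
        rw [← Real.exp_add]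
        exact Real.exp_le_exp.2 (by linarith)
      have h6 : (a k θ) ^ 2 ≤ Real.exp (-2 * lam k) * Real.exp (4 + 2 * (F (pt (rr k) θ)).re) := by
        have h7 := mul_le_mul_of_nonneg_left h5 (Real.exp_pos (-2 * lam k)).le
        have h8 : Real.exp (-2 * lam k) * ((a k θ) ^ 2 * Real.exp (2 * lam k)) = (a k θ) ^ 2 := by
          have : Real.exp (-2 * lam k) * Real.exp (2 * lam k) = 1 := by
            rw [← Real.exp_add]
            have : -2 * lam k + 2 * lam k = 0 := by ring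
            rw [this, Real.exp_zero]
          calc Real.exp (-2 * lam k) * ((a k θ) ^ 2 * Real.exp (2 * lam k))
              = (Real.exp (-2 * lam k) * Real.exp (2 * lam k)) * (a k θ) ^ 2 := by ring
            _ = _ := by rw [this, one_mul]
        rw [h8] at h7
        exact h7
      have h9 : ‖q.eval (pt (rr k) θ) * Complex.exp (F (pt (rr k) θ))‖ ^ 2 =
          ‖q.eval (pt (rr k) θ)‖ ^ 2 * Real.exp (2 * (F (pt (rr k) θ)).re) := by
        rw [norm_mul, Complex.norm_exp, mul_pow, ← Real.exp_nat_mul]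
        norm_num
      rw [h9]
      have h10 := mul_le_mul_of_nonneg_right h6 (sq_nonneg ‖q.eval (pt (rr k) θ)‖)
      rw [Real.exp_add] at h10
      refine h10.trans (le_of_eq ?_)
      ring
  -- step 5
  have e5 : ∀ K, ∑ k ∈ Finset.range K, kap ^ k * s k ≤ Real.exp 2 * Real.sqrt (S / (1 - kap)) := by
    intro K
    have hSK : ∑ k ∈ Finset.range K, kap ^ k * (s k) ^ 2 ≤ Real.exp 4 * S := by
      refine le_trans ?_ (mul_le_mul_of_nonneg_left (hS K) (Real.exp_pos 4).le)
      rw [Finset.mul_sum]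
      apply Finset.sum_le_sum
      intro k _
      have := mul_le_mul_of_nonneg_left (e4 k) (pow_nonneg hk0 k)
      refine this.trans (le_of_eq ?_)
      ring
    have hS0 : 0 ≤ S := by simpa using hS 0
    have hCS := Finset.sum_mul_sq_le_sq_mul_sq (Finset.range K) (fun k => Real.sqrt (kap ^ k))
      (fun k => Real.sqrt (kap ^ k) * s k)

    have f1 : ∑ k ∈ Finset.range K, Real.sqrt (kap ^ k) * (Real.sqrt (kap ^ k) * s k) =
        ∑ k ∈ Finset.range K, kap ^ k * s k := by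
      apply Finset.sum_congr rfl
      intro k _
      rw [← mul_assoc, Real.mul_self_sqrt (pow_nonneg hk0 k)]
    have f2 : ∑ k ∈ Finset.range K, Real.sqrt (kap ^ k) ^ 2 = ∑ k ∈ Finset.range K, kap ^ k := by
      apply Finset.sum_congr rfl
      intro k _
      rw [Real.sq_sqrt (pow_nonneg hk0 k)]
    have f3 : ∑ k ∈ Finset.range K, (Real.sqrt (kap ^ k) * s k) ^ 2 = ∑ k ∈ Finset.range K, kap ^ k * (s k) ^ 2 := by
      apply Finset.sum_congr rfl
      intro k _
      rw [mul_pow, Real.sq_sqrt (pow_nonneg hk0 k)]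
    rw [f1, f2, f3] at hCS
    have g1 : (∑ k ∈ Finset.range K, kap ^ k) * ∑ k ∈ Finset.range K, kap ^ k * (s k) ^ 2 ≤
        (1 / (1 - kap)) * (Real.exp 4 * S) := by
      apply mul_le_mul (geo_le K) hSK
      · exact Finset.sum_nonneg (fun k _ => mul_nonneg (pow_nonneg hk0 k) (sq_nonneg _))
      · positivity
    have g2 : (Real.exp 2 * Real.sqrt (S / (1 - kap))) ^ 2 = (1 / (1 - kap)) * (Real.exp 4 * S) := by
      rw [mul_pow, Real.sq_sqrt (by positivity), ← Real.exp_nat_mul]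
      norm_num
      ring
    apply le_of_sq_le_sq _ (by positivity)
    rw [g2]
    exact hCS.trans g1
  -- step 6
  have e6 : ∀ K, ‖q.eval 0‖ ≤ Real.exp 2 * Real.sqrt (S / (1 - kap)) + kap ^ K *
      Real.sqrt (∑ m ∈ Finset.range (q.natDegree + 1), ‖q.coeff m‖ ^ 2) := by
    intro K
    rw [e1]
    refine (e2 K).trans (add_le_add (e5 K) ?_)
    exact mul_le_mul_of_nonneg_left (V_le _ _ q (rr_bd K).1 (rr_bd K).2.1.le) (pow_nonneg hk0 K)
  have hlim : Tendsto (fun K : ℕ => Real.exp 2 * Real.sqrt (S / (1 - kap)) + kap ^ K *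
      Real.sqrt (∑ m ∈ Finset.range (q.natDegree + 1), ‖q.coeff m‖ ^ 2)) atTop
      (𝓝 (Real.exp 2 * Real.sqrt (S / (1 - kap)) + 0 *
      Real.sqrt (∑ m ∈ Finset.range (q.natDegree + 1), ‖q.coeff m‖ ^ 2))) :=
    tendsto_const_nhds.add ((tendsto_pow_atTop_nhds_zero_of_lt_one hk0 hk1).mul_const _)
  rw [zero_mul, add_zero] at hlim
  exact ge_of_tendsto' hlim e6


end Pool.Agent.Helper265.WI.EvalBound
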