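import Mathlib
import Pool.Agent.Helper265.WI.Base
set_option autoImplicit false

namespace Pool.Agent.Helper265.WI.Kap

theorem kap_lt_one : kap < 1 := by
  unfold kap
  rw [Real.sqrt_lt' one_pos]
  have : 0 < 1 / (8 * Real.pi) := by positivity
  linarith

theorem kap_pos : 0 < kap := by
  unfold kap
  apply Real.sqrt_pos.mpr
  have hpi : (3:ℝ) < Real.pi := Real.pi_gt_three
  have : 1 / (8 * Real.pi) < 1 := by
    rw [div_lt_one (by positivity)]
    linarith
  linarith

end Pool.Agent.Helper265.WI.Kap
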