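import Mathlib
import Pool.Agent.Helper265.WI.Base
set_option autoImplicit false
open MeasureTheory Polynomial Filter Topology

namespace Pool.Agent.Helper265.WI.Norm


theorem nf_rr_pos (k : ℕ) : 0 < rr k := by
  unfold rr
  have : ((1 : ℝ) / 2) ^ (k + 1) < 1 := pow_lt_one₀ (by norm_num) (by norm_num) (by omega)
  linarith

theorem nf_rr_lt (k : ℕ) : rr k < 1 := by
  unfold rr
  have : (0 : ℝ) < (1 / 2) ^ (k + 1) := by positivity
  linarith

theorem nf_pt_norm (r θ : ℝ) (hr : 0 ≤ r) : ‖pt r θ‖ = r := by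
  unfold pt
  rw [norm_mul, Complex.norm_exp_ofReal_mul_I, mul_one, Complex.norm_real, Real.norm_of_nonneg hr]

theorem nf_pt_cont (r : ℝ) : Continuous (pt r) := by
  unfold pt
  fun_prop

/-- TARGET 1. -/
theorem nu_radial (w : ℕ → ℝ) (hw : ∀ k, 0 < w k) (hs : Summable w) : IsRadialPart (nu w) := by
  refine ⟨?_, ?_, ?_, ?_⟩
  · unfold nu
    rw [Measure.sum_apply _ MeasurableSet.univ]
    have : ∀ k, (ENNReal.ofReal (w k) • Measure.dirac (rr k)) Set.univ = ENNReal.ofReal (w k) := by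
      intro k
      rw [Measure.smul_apply, Measure.dirac_apply' _ MeasurableSet.univ]
      simp
    simp only [this]
    exact hs.tsum_ofReal_lt_top
  · unfold nu
    rw [Measure.sum_apply _ measurableSet_Icc.compl]
    rw [ENNReal.tsum_eq_zero]
    intro k
    rw [Measure.smul_apply, Measure.dirac_apply' _ measurableSet_Icc.compl,
      Set.indicator_of_notMem]
    · simp
    · simp only [Set.mem_compl_iff, Set.mem_Icc, not_not]
      exact ⟨(nf_rr_pos k).le, (nf_rr_lt k).le⟩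
  · unfold nu
    rw [Measure.sum_apply _ (measurableSet_singleton _)]
    rw [ENNReal.tsum_eq_zero]
    intro k
    rw [Measure.smul_apply, Measure.dirac_apply' _ (measurableSet_singleton _),
      Set.indicator_of_notMem]
    · simp
    · simp only [Set.mem_singleton_iff]
      exact (nf_rr_pos k).ne'
  · intro τ h0 h1
    obtain ⟨k, hk⟩ := exists_pow_lt_of_lt_one (show (0 : ℝ) < 1 - τ by linarith)
      (show (1 / 2 : ℝ) < 1 by norm_num)
    have hk' : τ ≤ rr k := by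
      unfold rr
      have : ((1 : ℝ) / 2) ^ (k + 1) ≤ (1 / 2) ^ k :=
        pow_le_pow_of_le_one (by norm_num) (by norm_num) (by omega)
      linarith
    unfold nu
    rw [Measure.sum_apply _ measurableSet_Icc]
    refine lt_of_lt_of_le ?_ (ENNReal.le_tsum k)
    rw [Measure.smul_apply, Measure.dirac_apply' _ measurableSet_Icc,
      Set.indicator_of_mem (show rr k ∈ Set.Icc τ 1 from ⟨hk', (nf_rr_lt k).le⟩)]
    simp [hw k]

theorem nf_intPow (w : ℕ → ℝ) (f : ℂ → ℂ) (τ : ℝ) :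
    integralPow 2 (nu w) f τ = ∑' k, ENNReal.ofReal (w k) * (ENNReal.ofReal (1 / (2 * Real.pi)) *
      ∫⁻ θ in Set.Ioc (0:ℝ) (2 * Real.pi), ‖f ((τ : ℂ) * pt (rr k) θ)‖ₑ ^ (2 : ℝ)) := by
  unfold integralPow nu
  rw [lintegral_sum_measure]
  refine tsum_congr fun k => ?_
  rw [lintegral_smul_measure, lintegral_dirac, smul_eq_mul]
  rfl

theorem nf_enorm_sq (z : ℂ) : ‖z‖ₑ ^ (2 : ℝ) = ENNReal.ofReal (‖z‖ ^ 2) := by
  rw [← ofReal_norm, ENNReal.ofReal_rpow_of_nonneg (norm_nonneg _) (by norm_num)]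
  congr 1
  exact Real.rpow_natCast _ 2

theorem nf_sqrt (x : ℝ) (hx : 0 ≤ x) :
    ENNReal.ofReal (Real.sqrt x) = (ENNReal.ofReal x) ^ ((1 : ℝ) / 2) := by
  rw [ENNReal.ofReal_rpow_of_nonneg hx (by norm_num), Real.sqrt_eq_rpow]

/-- TARGET 2. Upper bound for the norm. -/
theorem normE_le (w : ℕ → ℝ) (hw : ∀ k, 0 < w k) (f : ℂ → ℂ) (B : ℕ → ℝ)
    (hB : ∀ k, ∀ z : ℂ, ‖z‖ ≤ rr k → ‖f z‖ ≤ B k)
    (hs : Summable (fun k => w k * (B k) ^ 2)) :
    normE 2 (nu w) f ≤ ENNReal.ofReal (Real.sqrt (∑' k, w k * (B k) ^ 2)) := by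
  have hnn : ∀ k, 0 ≤ w k * (B k) ^ 2 := fun k => mul_nonneg (hw k).le (sq_nonneg _)
  rw [nf_sqrt _ (tsum_nonneg hnn)]
  unfold normE
  refine iSup₂_le fun τ hτ => ?_
  refine ENNReal.rpow_le_rpow ?_ (by norm_num)
  rw [nf_intPow, ENNReal.ofReal_tsum_of_nonneg hnn hs]
  refine ENNReal.tsum_le_tsum fun k => ?_
  rw [ENNReal.ofReal_mul (hw k).le]
  refine mul_le_mul_right ?_ _
  have h1 : ∫⁻ θ in Set.Ioc (0:ℝ) (2 * Real.pi), ‖f ((τ : ℂ) * pt (rr k) θ)‖ₑ ^ (2 : ℝ) ≤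
      ∫⁻ θ in Set.Ioc (0:ℝ) (2 * Real.pi), ENNReal.ofReal (B k ^ 2) := by
    refine lintegral_mono fun θ => ?_
    rw [nf_enorm_sq]
    refine ENNReal.ofReal_le_ofReal ?_
    refine pow_le_pow_left₀ (norm_nonneg _) (hB k _ ?_) 2
    rw [norm_mul, nf_pt_norm _ _ (nf_rr_pos k).le, Complex.norm_real, Real.norm_of_nonneg hτ.1]
    have := mul_le_mul_of_nonneg_right hτ.2.le (nf_rr_pos k).le
    linarith
  rw [lintegral_const, Measure.restrict_apply_univ, Real.volume_Ioc, sub_zero] at h1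
  refine (mul_le_mul_right h1 _).trans (le_of_eq ?_)
  rw [← ENNReal.ofReal_mul (sq_nonneg _), ← ENNReal.ofReal_mul (by positivity)]
  congr 1
  have := Real.pi_pos
  field_simp

theorem nf_mean_eq (g : ℝ → ℂ) (hg : Continuous g) :
    ENNReal.ofReal (mean (fun θ => ‖g θ‖ ^ 2)) = ENNReal.ofReal (1 / (2 * Real.pi)) *
      ∫⁻ θ in Set.Ioc (0:ℝ) (2 * Real.pi), ‖g θ‖ₑ ^ (2 : ℝ) := by
  have hpi := Real.pi_pos
  unfold mean
  rw [ENNReal.ofReal_mul (by positivity), intervalIntegral.integral_of_le (by positivity),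
    ofReal_integral_eq_lintegral_ofReal]
  · congr 1
    refine lintegral_congr fun θ => ?_
    rw [nf_enorm_sq]
  · have h1 : Continuous (fun θ => ‖g θ‖ ^ 2) := by fun_prop
    exact (h1.integrableOn_Icc).mono_set Set.Ioc_subset_Icc_self
  · exact Filter.Eventually.of_forall fun θ => sq_nonneg _

theorem nf_mean_nonneg (g : ℝ → ℝ) (hg : ∀ θ, 0 ≤ g θ) : 0 ≤ mean g := by
  unfold mean
  have hpi := Real.pi_pos
  exact mul_nonneg (by positivity) (intervalIntegral.integral_nonneg (by positivity)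
    fun θ _ => hg θ)

theorem nf_cont2 (f : ℂ → ℂ) (hf : DifferentiableOn ℂ f (Metric.ball 0 1)) (k : ℕ) :
    Continuous (fun q : ℝ × ℝ => f (((max 0 (min q.1 1) : ℝ) : ℂ) * pt (rr k) q.2)) := by
  refine hf.continuousOn.comp_continuous ?_ ?_
  · have := nf_pt_cont (rr k)
    fun_prop
  · rintro ⟨τ, θ⟩
    rw [mem_ball_zero_iff, norm_mul, nf_pt_norm _ _ (nf_rr_pos k).le, Complex.norm_real,
      Real.norm_of_nonneg (le_max_left _ _)]
    simp only
    have h1 : max 0 (min τ 1) ≤ 1 := max_le zero_le_one (min_le_right _ _)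
    have := mul_le_mul_of_nonneg_right h1 (nf_rr_pos k).le
    have := nf_rr_lt k
    linarith

theorem nf_le (w : ℕ → ℝ) (hw : ∀ k, 0 < w k) (f : ℂ → ℂ)
    (hf : DifferentiableOn ℂ f (Metric.ball 0 1)) (K : ℕ) (τ : ℝ) (hτ : τ ∈ Set.Ico (0:ℝ) 1) :
    ENNReal.ofReal (Real.sqrt (∑ k ∈ Finset.range K, w k *
      mean (fun θ => ‖f (((max 0 (min τ 1) : ℝ) : ℂ) * pt (rr k) θ)‖ ^ 2))) ≤
      normE 2 (nu w) f := by
  have hm : max 0 (min τ 1) = τ := by
    rw [min_eq_left hτ.2.le, max_eq_right hτ.1]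
  have hnn : ∀ k, 0 ≤ w k *
      mean (fun θ => ‖f (((max 0 (min τ 1) : ℝ) : ℂ) * pt (rr k) θ)‖ ^ 2) := fun k =>
    mul_nonneg (hw k).le (nf_mean_nonneg _ fun θ => sq_nonneg _)
  rw [nf_sqrt _ (Finset.sum_nonneg fun k _ => hnn k)]
  refine le_trans ?_ (le_iSup₂ (f := fun τ (_ : τ ∈ Set.Ico (0:ℝ) 1) =>
    (integralPow 2 (nu w) f τ) ^ ((1 : ℝ) / 2)) τ hτ)
  refine ENNReal.rpow_le_rpow ?_ (by norm_num)
  rw [nf_intPow, ENNReal.ofReal_sum_of_nonneg fun k _ => hnn k]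
  refine le_trans (le_of_eq ?_) (ENNReal.sum_le_tsum (Finset.range K))
  refine Finset.sum_congr rfl fun k _ => ?_
  have hc : Continuous (fun θ => f (((max 0 (min τ 1) : ℝ) : ℂ) * pt (rr k) θ)) :=
    (nf_cont2 f hf k).comp ((continuous_const (y := τ)).prodMk continuous_id)
  rw [ENNReal.ofReal_mul (hw k).le, nf_mean_eq _ hc]
  simp only [hm]

/-- TARGET 3. Lower bound for the norm. -/
theorem le_normE (w : ℕ → ℝ) (hw : ∀ k, 0 < w k) (f : ℂ → ℂ)
    (hf : DifferentiableOn ℂ f (Metric.ball 0 1)) (K : ℕ) :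
    ENNReal.ofReal (Real.sqrt (∑ k ∈ Finset.range K, w k *
      mean (fun θ => ‖f (pt (rr k) θ)‖ ^ 2))) ≤ normE 2 (nu w) f := by
  have hcont : Continuous (fun τ : ℝ => ENNReal.ofReal (Real.sqrt (∑ k ∈ Finset.range K, w k *
      mean (fun θ => ‖f (((max 0 (min τ 1) : ℝ) : ℂ) * pt (rr k) θ)‖ ^ 2)))) := by
    refine ENNReal.continuous_ofReal.comp (Real.continuous_sqrt.comp ?_)
    refine continuous_finsetSum _ fun k _ => ?_
    unfold mean
    refine continuous_const.mul (continuous_const.mul ?_)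
    refine intervalIntegral.continuous_parametric_intervalIntegral_of_continuous' ?_ 0 (2 * Real.pi)
    have := (nf_cont2 f hf k).norm.pow 2
    exact this
  have h1 : Tendsto (fun τ : ℝ => ENNReal.ofReal (Real.sqrt (∑ k ∈ Finset.range K, w k *
      mean (fun θ => ‖f (((max 0 (min τ 1) : ℝ) : ℂ) * pt (rr k) θ)‖ ^ 2)))) (𝓝[<] 1)
      (𝓝 (ENNReal.ofReal (Real.sqrt (∑ k ∈ Finset.range K, w k *
      mean (fun θ => ‖f (((max 0 (min (1:ℝ) 1) : ℝ) : ℂ) * pt (rr k) θ)‖ ^ 2))))) :=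
    (hcont.tendsto 1).mono_left nhdsWithin_le_nhds
  have h2 : (max 0 (min (1:ℝ) 1)) = 1 := by norm_num
  simp only [h2, Complex.ofReal_one, one_mul] at h1
  refine le_of_tendsto h1 ?_
  have h3 : ∀ᶠ τ : ℝ in 𝓝[<] 1, τ ∈ Set.Ico (0:ℝ) 1 := by
    filter_upwards [Ioo_mem_nhdsLT (show (0 : ℝ) < 1 by norm_num)] with τ hτ
    exact ⟨hτ.1.le, hτ.2⟩
  filter_upwards [h3] with τ hτ
  exact nf_le w hw f hf K τ hτ

/-- TARGET 4. Mean value inequality. -/
theorem mean_value (f : ℂ → ℂ) (hf : DifferentiableOn ℂ f (Metric.ball 0 1)) (k : ℕ) :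
    ‖f 0‖ ^ 2 ≤ mean (fun θ => ‖f (pt (rr k) θ)‖ ^ 2) := by
  have hsub : Metric.closedBall (0 : ℂ) |rr k| ⊆ Metric.ball 0 1 := by
    rw [abs_of_pos (nf_rr_pos k)]
    exact Metric.closedBall_subset_ball (nf_rr_lt k)
  have hd : DifferentiableOn ℂ (fun z => f z ^ 2) (Metric.ball 0 1) := hf.pow 2
  have hdc : DiffContOnCl ℂ (fun z => f z ^ 2) (Metric.ball 0 |rr k|) :=
    DifferentiableOn.diffContOnCl (hd.mono ((Metric.closure_ball_subset_closedBall).trans hsub))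
  have h1 := hdc.circleAverage
  rw [Real.circleAverage_def] at h1
  rw [← norm_pow, ← h1, norm_smul]
  unfold mean
  have hpi := Real.pi_pos
  have h2 : ‖(2 * Real.pi)⁻¹‖ = 1 / (2 * Real.pi) := by
    rw [Real.norm_of_nonneg (by positivity), one_div]
  rw [h2]
  refine mul_le_mul_of_nonneg_left ?_ (by positivity)
  refine (intervalIntegral.norm_integral_le_integral_norm (by positivity)).trans (le_of_eq ?_)
  refine intervalIntegral.integral_congr fun θ _ => ?_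
  simp only [norm_pow]
  congr 3
  unfold pt circleMap
  rw [zero_add]

end Pool.Agent.Helper265.WI.Norm
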