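import Mathlib
import Pool.Agent.Helper265.WI.Base
import Pool.Agent.Helper265.WI.Norm
import Pool.Agent.Helper265.WI.Dense
import Pool.Agent.Helper265.WI.Kap
set_option autoImplicit false
open MeasureTheory Polynomial Filter Topology

namespace Pool.Agent.Helper265.WI.Half
open Pool.Agent.Helper265.WI.Norm
open Pool.Agent.Helper265.WI.Dense
open Pool.Agent.Helper265.WI.Kap

theorem memE_summ (u : ℕ → ℝ) (C : ℝ) (h0 : ∀ k, 0 ≤ u k) (h1 : ∀ k, u k ≤ kap ^ k * C) :
    Summable u := by
  refine Summable.of_nonneg_of_le h0 h1 ?_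
  exact (summable_geometric_of_lt_one kap_pos.le kap_lt_one).mul_right C

theorem memE_aux (G : ℂ → ℂ) (hG : DifferentiableOn ℂ G (Metric.ball 0 1)) (lam : ℕ → ℝ)
    (hlam : ∀ k, 0 ≤ lam k) (a : ℝ) (ha1 : a ≤ 1)
    (hre : ∀ k, ∀ z : ℂ, ‖z‖ ≤ rr k → (G z).re ≤ a * (lam k + 1)) :
    MemE 2 (nu (fun k => kap ^ k * Real.exp (-2 * lam k))) (fun z => Complex.exp (G z)) := by
  refine ⟨hG.cexp, ?_⟩
  refine lt_of_le_of_lt (normE_le (fun k => kap ^ k * Real.exp (-2 * lam k))
    (fun k => mul_pos (pow_pos kap_pos k) (Real.exp_pos _)) _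
    (fun k => Real.exp (a * (lam k + 1))) ?_ ?_) ENNReal.ofReal_lt_top
  · intro k z hz
    rw [Complex.norm_exp]
    exact Real.exp_le_exp.2 (hre k z hz)
  · refine memE_summ _ (Real.exp 2) (fun k => ?_) (fun k => ?_)
    · have := (pow_pos kap_pos k)
      positivity
    · rw [mul_assoc]
      refine mul_le_mul_of_nonneg_left ?_ (pow_pos kap_pos k).le
      rw [← Real.exp_nat_mul, ← Real.exp_add]
      apply Real.exp_le_exp.2
      push_cast
      nlinarith [hlam k]

/-- TARGET 1. -/
theorem memE_exp (F : ℂ → ℂ) (hF : DifferentiableOn ℂ F (Metric.ball 0 1)) (lam : ℕ → ℝ)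
    (hlam : ∀ k, 0 ≤ lam k)
    (hre : ∀ k, ∀ z : ℂ, ‖z‖ ≤ rr k → |(F z).re| ≤ lam k + 1) :
    MemE 2 (nu (fun k => kap ^ k * Real.exp (-2 * lam k))) (fun z => Complex.exp (F z)) ∧
    MemE 2 (nu (fun k => kap ^ k * Real.exp (-2 * lam k))) (fun z => Complex.exp (-F z)) := by
  constructor
  · refine memE_aux F hF lam hlam 1 le_rfl (fun k z hz => ?_)
    rw [one_mul]
    exact (abs_le.1 (hre k z hz)).2
  · refine memE_aux (fun z => -F z) hF.neg lam hlam 1 le_rfl (fun k z hz => ?_)
    rw [one_mul, Complex.neg_re]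
    linarith [(abs_le.1 (hre k z hz)).1]

/-- TARGET 2. -/
theorem wi_half (F : ℂ → ℂ) (hF : DifferentiableOn ℂ F (Metric.ball 0 1)) (lam : ℕ → ℝ)
    (hlam : ∀ k, 0 ≤ lam k)
    (hre : ∀ k, ∀ z : ℂ, ‖z‖ ≤ rr k → |(F z).re| ≤ lam k + 1) :
    WeaklyInvertible 2 (nu (fun k => kap ^ k * Real.exp (-2 * lam k)))
      (fun z => Complex.exp (F z / 2)) := by
  have hw : ∀ k, 0 < kap ^ k * Real.exp (-2 * lam k) := fun k =>
    mul_pos (pow_pos kap_pos k) (Real.exp_pos _)
  have hre2 : ∀ z : ℂ, (F z / 2).re = (F z).re / 2 := by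
    intro z
    have : F z / 2 = F z / ((2 : ℝ) : ℂ) := by push_cast; rfl
    rw [this, Complex.div_ofReal_re]
  refine ⟨memE_aux (fun z => F z / 2) (hF.div_const 2) lam hlam (1 / 2) (by norm_num)
    (fun k z hz => ?_), ?_⟩
  · rw [hre2]
    linarith [(abs_le.1 (hre k z hz)).2]
  · have key : ∀ n : ℕ, ∃ P : ℂ[X],
        normE 2 (nu (fun k => kap ^ k * Real.exp (-2 * lam k)))
          (fun z => P.eval z * Complex.exp (F z / 2) - 1)
          ≤ ENNReal.ofReal (Real.sqrt (1 / ((n : ℝ) + 1))) := by
      intro n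
      obtain ⟨P, c, hc0, hPc, hs, ht⟩ := poly_dense (fun z => Complex.exp (-(F z) / 2))
        (hF.neg.div_const 2).cexp
        (fun k => kap ^ k * Real.exp (-2 * lam k) * Real.exp (lam k + 1))
        (fun k => Real.exp ((lam k + 1) / 2))
        (fun k => (mul_pos (hw k) (Real.exp_pos _)).le)
        (by
          refine memE_summ _ (Real.exp 1) (fun k => (mul_pos (hw k) (Real.exp_pos _)).le)
            (fun k => ?_)
          rw [mul_assoc]
          refine mul_le_mul_of_nonneg_left ?_ (pow_pos kap_pos k).le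
          rw [← Real.exp_add]
          apply Real.exp_le_exp.2
          linarith [hlam k])
        (by
          intro k z hz
          rw [Complex.norm_exp]
          apply Real.exp_le_exp.2
          have : (-(F z) / 2).re = -((F z).re / 2) := by
            rw [neg_div, Complex.neg_re, hre2]
          rw [this]
          linarith [(abs_le.1 (hre k z hz)).1])
        (by
          refine memE_summ _ (Real.exp 2) (fun k => ?_) (fun k => ?_)
          · have := mul_pos (hw k) (Real.exp_pos (lam k + 1))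
            positivity
          · rw [mul_assoc, mul_assoc]
            refine mul_le_mul_of_nonneg_left ?_ (pow_pos kap_pos k).le
            rw [← Real.exp_nat_mul, ← Real.exp_add, ← Real.exp_add]
            apply Real.exp_le_exp.2
            push_cast
            linarith [hlam k])
        (1 / ((n : ℝ) + 1)) (by positivity)
      refine ⟨P, ?_⟩
      have he : ∀ k, kap ^ k * Real.exp (-2 * lam k) * (Real.exp ((lam k + 1) / 2) * c k) ^ 2
          = kap ^ k * Real.exp (-2 * lam k) * Real.exp (lam k + 1) * (c k) ^ 2 := by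
        intro k
        rw [mul_pow, ← Real.exp_nat_mul]
        have : ((2 : ℕ) : ℝ) * ((lam k + 1) / 2) = lam k + 1 := by push_cast; ring
        rw [this]
        ring
      refine (normE_le (fun k => kap ^ k * Real.exp (-2 * lam k)) hw _
        (fun k => Real.exp ((lam k + 1) / 2) * c k) ?_ ?_).trans ?_
      · intro k z hz
        have h1 : P.eval z * Complex.exp (F z / 2) - 1
            = Complex.exp (F z / 2) * (P.eval z - Complex.exp (-(F z) / 2)) := by
          rw [mul_sub, ← Complex.exp_add]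
          have : F z / 2 + -(F z) / 2 = 0 := by ring
          rw [this, Complex.exp_zero, mul_comm]
        rw [h1, norm_mul]
        refine mul_le_mul ?_ (hPc k z hz) (norm_nonneg _) (Real.exp_pos _).le
        rw [Complex.norm_exp, hre2]
        apply Real.exp_le_exp.2
        linarith [(abs_le.1 (hre k z hz)).2]
      · exact hs.congr (fun k => (he k).symm)
      · apply ENNReal.ofReal_le_ofReal
        apply Real.sqrt_le_sqrt
        refine le_trans (le_of_eq ?_) ht
        exact tsum_congr he
    choose P hP using key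
    refine ⟨P, ?_⟩
    have h0 : Tendsto (fun n : ℕ => ENNReal.ofReal (Real.sqrt (1 / ((n : ℝ) + 1)))) atTop (𝓝 0) := by
      have h1 : Tendsto (fun n : ℕ => 1 / ((n : ℝ) + 1)) atTop (𝓝 0) :=
        tendsto_one_div_add_atTop_nhds_zero_nat
      have h2 := ((ENNReal.continuous_ofReal.comp Real.continuous_sqrt).tendsto 0).comp h1
      have h3 : (ENNReal.ofReal ∘ fun x => √x) 0 = 0 := by
        simp
      rw [h3] at h2
      exact h2
    exact tendsto_of_tendsto_of_tendsto_of_le_of_le tendsto_const_nhds h0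
      (fun n => zero_le) hP

/-- TARGET 3. -/
theorem wi_one (ν : Measure ℝ) (hν : IsRadialPart ν) : WeaklyInvertible 2 ν (fun _ => 1) := by
  constructor
  · refine ⟨differentiableOn_const 1, ?_⟩
    set C : ENNReal := ENNReal.ofReal (1 / (2 * Real.pi)) *
      volume (Set.Ioc (0:ℝ) (2 * Real.pi)) * ν Set.univ with hC
    have hCt : C < ⊤ := by
      refine ENNReal.mul_lt_top (ENNReal.mul_lt_top ENNReal.ofReal_lt_top ?_) hν.finite
      rw [Real.volume_Ioc]
      exact ENNReal.ofReal_lt_top
    have h1 : normE 2 ν (fun _ => 1) ≤ C ^ ((1 : ℝ) / 2) := by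
      unfold normE
      refine iSup₂_le (fun τ _ => ?_)
      apply le_of_eq
      congr 1
      unfold integralPow
      simp [hC]
    exact lt_of_le_of_lt h1 (ENNReal.rpow_lt_top_of_nonneg (by norm_num) hCt.ne)
  · refine ⟨fun _ => 1, ?_⟩
    have h1 : normE 2 ν (fun z => (1 : ℂ[X]).eval z * 1 - 1) = 0 := by
      unfold normE integralPow
      simp
    have h2 : (fun _ : ℕ => normE 2 ν (fun z => (1 : ℂ[X]).eval z * 1 - 1)) = fun _ => 0 := by
      funext n
      exact h1
    show Tendsto (fun _ : ℕ => normE 2 ν (fun z => (1 : ℂ[X]).eval z * 1 - 1)) atTop (𝓝 0)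
    rw [h2]
    exact tendsto_const_nhds

end Pool.Agent.Helper265.WI.Half
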