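import Mathlib
import Pool.Agent.Helper265.WI.Base
set_option autoImplicit false
open MeasureTheory Polynomial Filter Topology

namespace Pool.Agent.Helper265.WI.LimitF


theorem limit_F_rr_pos (k : ℕ) : 0 < rr k := by
  unfold rr
  have h1 : (1 / 2 : ℝ) ^ (k + 1) ≤ (1 / 2) ^ 1 :=
    pow_le_pow_of_le_one (by norm_num) (by norm_num) (by omega)
  linarith

/-- the limit function and its rate -/
theorem limit_F_lim (Φ : ℕ → ℂ[X])
    (h1 : ∀ k, ∀ z : ℂ, ‖z‖ ≤ 1 - (1 / 2) ^ k →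
      ‖(Φ (k + 1)).eval z - (Φ k).eval z‖ ≤ (1 / 2) ^ (k + 1)) (j : ℕ) (z : ℂ)
    (hz : ‖z‖ ≤ rr j) :
    ∃ a : ℂ, Tendsto (fun k => (Φ k).eval z) atTop (𝓝 a) ∧
      ∀ n, ‖(Φ (n + (j + 1))).eval z - a‖ ≤ (1 / 2) ^ (n + (j + 1)) := by
  have hstep : ∀ n : ℕ, dist ((Φ (n + (j + 1))).eval z) ((Φ (n + 1 + (j + 1))).eval z) ≤
      (1 / 2) ^ (j + 2) * (1 / 2) ^ n := by
    intro n
    have h2 : (1 / 2 : ℝ) ^ (n + (j + 1)) ≤ (1 / 2) ^ (j + 1) :=
      pow_le_pow_of_le_one (by norm_num) (by norm_num) (by omega)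
    have h3 : ‖z‖ ≤ 1 - (1 / 2) ^ (n + (j + 1)) := by
      unfold rr at hz
      linarith
    have h4 := h1 (n + (j + 1)) z h3
    have h5 : n + 1 + (j + 1) = n + (j + 1) + 1 := by omega
    rw [h5, dist_comm, dist_eq_norm]
    refine h4.trans (le_of_eq ?_)
    ring
  obtain ⟨a, ha⟩ := cauchySeq_tendsto_of_complete
    (cauchySeq_of_le_geometric (1 / 2) ((1 / 2) ^ (j + 2)) (by norm_num) hstep)
  refine ⟨a, (tendsto_add_atTop_iff_nat (f := fun k => (Φ k).eval z) (j + 1)).1 ha, ?_⟩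
  intro n
  have h2 := dist_le_of_le_geometric_of_tendsto (1 / 2) ((1 / 2) ^ (j + 2)) (by norm_num)
    hstep ha n
  rw [dist_eq_norm] at h2
  refine h2.trans (le_of_eq ?_)
  have h3 : (1 : ℝ) - 1 / 2 = 1 / 2 := by norm_num
  rw [h3]
  have h4 : (1 / 2 : ℝ) ^ (j + 2) = (1 / 2) ^ (j + 1) * (1 / 2) := by ring
  have h5 : (1 / 2 : ℝ) ^ (n + (j + 1)) = (1 / 2) ^ n * (1 / 2) ^ (j + 1) := by ring
  rw [h4, h5]
  field_simp

/-- the real part of a polynomial is bounded by its values on the circle -/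
theorem limit_F_re_le (P : ℂ[X]) (r c : ℝ) (hr : 0 < r)
    (h : ∀ θ : ℝ, |(P.eval (pt r θ)).re| ≤ c) (z : ℂ) (hz : ‖z‖ ≤ r) :
    (P.eval z).re ≤ c := by
  have hd : Differentiable ℂ (fun z => Complex.exp (P.eval z)) :=
    P.differentiable.cexp
  have h1 := Complex.norm_le_of_forall_mem_frontier_norm_le (f := fun z => Complex.exp (P.eval z))
    (U := Metric.ball 0 r) Metric.isBounded_ball hd.diffContOnCl (C := Real.exp c) ?_
    (z := z) (by
      rw [closure_ball _ hr.ne', mem_closedBall_zero_iff]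
      exact hz)
  · rw [Complex.norm_exp] at h1
    exact Real.exp_le_exp.1 h1
  · intro w hw
    rw [frontier_ball _ hr.ne', mem_sphere_zero_iff_norm] at hw
    have h2 : w = pt r (Complex.arg w) := by
      unfold pt
      rw [← hw]
      exact (Complex.norm_mul_exp_arg_mul_I w).symm
    rw [Complex.norm_exp]
    apply Real.exp_le_exp.2
    have h3 := h (Complex.arg w)
    rw [← h2] at h3
    exact (le_abs_self _).trans h3

theorem limit_F_abs_re_le (P : ℂ[X]) (r c : ℝ) (hr : 0 < r)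
    (h : ∀ θ : ℝ, |(P.eval (pt r θ)).re| ≤ c) (z : ℂ) (hz : ‖z‖ ≤ r) :
    |(P.eval z).re| ≤ c := by
  rw [abs_le]
  constructor
  · have h1 := limit_F_re_le (-P) r c hr (fun θ => by
      rw [eval_neg, Complex.neg_re, abs_neg]
      exact h θ) z hz
    rw [eval_neg, Complex.neg_re] at h1
    linarith
  · exact limit_F_re_le P r c hr h z hz

/-- TARGET. The limit function. -/
theorem limit_F (Φ : ℕ → ℂ[X]) (lam : ℕ → ℝ)
    (h0 : ∀ k, (Φ (k + 1)).eval 0 = (Φ k).eval 0)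
    (h1 : ∀ k, ∀ z : ℂ, ‖z‖ ≤ 1 - (1 / 2) ^ k →
      ‖(Φ (k + 1)).eval z - (Φ k).eval z‖ ≤ (1 / 2) ^ (k + 1))
    (h2 : ∀ k, ∀ θ : ℝ, |((Φ (k + 1)).eval (pt (rr k) θ)).re| ≤ lam k) :
    ∃ F : ℂ → ℂ, DifferentiableOn ℂ F (Metric.ball 0 1) ∧ F 0 = (Φ 0).eval 0 ∧
      (∀ k, ∀ z : ℂ, ‖z‖ ≤ rr k → ‖F z - (Φ (k + 1)).eval z‖ ≤ 1) ∧
      (∀ k, ∀ z : ℂ, ‖z‖ ≤ rr k → |(F z).re| ≤ lam k + 1) := by
  classical
  have hch : ∀ z : ℂ, ∃ a : ℂ, (∃ j, ‖z‖ ≤ rr j) → Tendsto (fun k => (Φ k).eval z) atTop (𝓝 a) := by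
    intro z
    by_cases hz : ∃ j, ‖z‖ ≤ rr j
    · obtain ⟨j, hj⟩ := hz
      obtain ⟨a, ha, _⟩ := limit_F_lim Φ h1 j z hj
      exact ⟨a, fun _ => ha⟩
    · exact ⟨0, fun h => absurd h hz⟩
  choose F hF using hch
  have hrate : ∀ (j : ℕ) (z : ℂ), ‖z‖ ≤ rr j → ∀ n,
      ‖(Φ (n + (j + 1))).eval z - F z‖ ≤ (1 / 2) ^ (n + (j + 1)) := by
    intro j z hz
    obtain ⟨a, ha, hn⟩ := limit_F_lim Φ h1 j z hz
    have h3 : F z = a := tendsto_nhds_unique (hF z ⟨j, hz⟩) ha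
    rw [h3]
    exact hn
  have hone : ∀ k, ∀ z : ℂ, ‖z‖ ≤ rr k → ‖F z - (Φ (k + 1)).eval z‖ ≤ 1 := by
    intro k z hz
    have h3 := hrate k z hz 0
    rw [zero_add, norm_sub_rev] at h3
    exact h3.trans (pow_le_one₀ (by norm_num) (by norm_num))
  refine ⟨F, ?_, ?_, hone, ?_⟩
  · have hloc : TendstoLocallyUniformlyOn (fun k z => (Φ k).eval z) F atTop
        (Metric.ball 0 1) := by
      rw [Metric.tendstoLocallyUniformlyOn_iff]
      intro ε hε x hx
      rw [mem_ball_zero_iff] at hx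
      obtain ⟨j, hj⟩ := exists_pow_lt_of_lt_one (sub_pos.2 hx) (by norm_num : (1 / 2 : ℝ) < 1)
      have hxj : ‖x‖ < rr j := by
        unfold rr
        have : (1 / 2 : ℝ) ^ (j + 1) ≤ (1 / 2) ^ j :=
          pow_le_pow_of_le_one (by norm_num) (by norm_num) (by omega)
        linarith
      obtain ⟨m, hm⟩ := exists_pow_lt_of_lt_one hε (by norm_num : (1 / 2 : ℝ) < 1)
      refine ⟨Metric.ball 0 (rr j), mem_nhdsWithin_of_mem_nhds
        (Metric.isOpen_ball.mem_nhds (by rw [mem_ball_zero_iff]; exact hxj)), ?_⟩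
      filter_upwards [eventually_ge_atTop (m + (j + 1))] with n hn y hy
      rw [mem_ball_zero_iff] at hy
      have h3 := hrate j y hy.le (n - (j + 1))
      rw [Nat.sub_add_cancel (by omega)] at h3
      rw [dist_comm, dist_eq_norm]
      have h4 : (1 / 2 : ℝ) ^ n ≤ (1 / 2) ^ m :=
        pow_le_pow_of_le_one (by norm_num) (by norm_num) (by omega)
      linarith
    exact hloc.differentiableOn
      (Filter.Eventually.of_forall fun k => (Φ k).differentiable.differentiableOn)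
      Metric.isOpen_ball
  · have hc : ∀ k, (Φ k).eval 0 = (Φ 0).eval 0 := by
      intro k
      induction k with
      | zero => rfl
      | succ k ih => rw [h0, ih]
    have h3 := hF 0 ⟨0, by rw [norm_zero]; exact (limit_F_rr_pos 0).le⟩
    have h4 : (fun k => (Φ k).eval 0) = fun _ => (Φ 0).eval 0 := funext hc
    rw [h4] at h3
    exact tendsto_nhds_unique h3 tendsto_const_nhds
  · intro k z hz
    have h3 := limit_F_abs_re_le (Φ (k + 1)) (rr k) (lam k) (limit_F_rr_pos k) (h2 k) z hz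
    have h4 := (Complex.abs_re_le_norm (F z - (Φ (k + 1)).eval z)).trans (hone k z hz)
    rw [Complex.sub_re] at h4
    rw [abs_le] at h3 h4 ⊢
    constructor <;> linarith [h3.1, h3.2, h4.1, h4.2]

end Pool.Agent.Helper265.WI.LimitF
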