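import Mathlib
import Pool.Agent.Helper265.WI.Base
import Pool.Agent.Helper265.WI.Norm
import Pool.Agent.Helper265.WI.Kap
set_option autoImplicit false
open MeasureTheory Polynomial Filter Topology

namespace Pool.Agent.Helper265.WI.NotWI
open Pool.Agent.Helper265.WI.Norm
open Pool.Agent.Helper265.WI.Kap

theorem zz_pt_mem (k : ℕ) (θ : ℝ) : pt (rr k) θ ∈ Metric.ball (0:ℂ) 1 := by
  rw [mem_ball_zero_iff]
  unfold pt
  rw [norm_mul, Complex.norm_exp_ofReal_mul_I, mul_one, Complex.norm_real, Real.norm_eq_abs]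
  unfold rr
  have h1 : (0:ℝ) < (1/2)^(k+1) := by positivity
  have h2 : ((1:ℝ)/2)^(k+1) ≤ 1 := pow_le_one₀ (by norm_num) (by norm_num)
  rw [abs_of_nonneg (by linarith)]
  linarith

theorem zz_pt_cont (k : ℕ) : Continuous (fun θ : ℝ => pt (rr k) θ) := by
  unfold pt
  fun_prop

theorem zz_mean_le (u v : ℝ → ℝ) (hu : Continuous u) (hv : Continuous v)
    (h : ∀ θ, u θ ≤ 2 * v θ + 2) : mean u ≤ 2 * mean v + 2 := by
  unfold mean
  have hpi : (0:ℝ) < 2 * Real.pi := by positivity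
  have h1 : ∫ θ in (0:ℝ)..(2 * Real.pi), u θ ≤ ∫ θ in (0:ℝ)..(2 * Real.pi), (2 * v θ + 2) := by
    apply intervalIntegral.integral_mono_on hpi.le
    · exact hu.intervalIntegrable _ _
    · exact Continuous.intervalIntegrable (by fun_prop) _ _
    · intro x _; exact h x
  have h2 : ∫ θ in (0:ℝ)..(2 * Real.pi), (2 * v θ + 2)
      = 2 * (∫ θ in (0:ℝ)..(2 * Real.pi), v θ) + 2 * (2 * Real.pi) := by
    rw [intervalIntegral.integral_add, intervalIntegral.integral_const_mul,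
      intervalIntegral.integral_const]
    · simp; ring
    · exact Continuous.intervalIntegrable (by fun_prop) _ _
    · exact Continuous.intervalIntegrable (by fun_prop) _ _
  rw [h2] at h1
  calc 1 / (2 * Real.pi) * ∫ θ in (0:ℝ)..(2 * Real.pi), u θ
      ≤ 1 / (2 * Real.pi) * (2 * (∫ θ in (0:ℝ)..(2 * Real.pi), v θ) + 2 * (2 * Real.pi)) :=
        mul_le_mul_of_nonneg_left h1 (by positivity)
    _ = 2 * (1 / (2 * Real.pi) * ∫ θ in (0:ℝ)..(2 * Real.pi), v θ) + 2 := by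
        field_simp

/-- TARGET. -/
theorem not_wi (Lam : ℝ) (hLam : 4 * Real.exp 2 / (1 - kap) < Real.exp Lam)
    (F : ℂ → ℂ) (hF : DifferentiableOn ℂ F (Metric.ball 0 1)) (hF0 : F 0 = -(Lam : ℂ))
    (lam : ℕ → ℝ) (hlam : ∀ k, 0 ≤ lam k)
    (hbound : ∀ (q : ℂ[X]) (S : ℝ),
      (∀ K : ℕ, ∑ k ∈ Finset.range K, kap ^ k * Real.exp (-2 * lam k) *
        mean (fun θ => ‖q.eval (pt (rr k) θ) * Complex.exp (F (pt (rr k) θ))‖ ^ 2) ≤ S) →
      ‖q.eval 0‖ ≤ Real.exp 2 * Real.sqrt (S / (1 - kap))) :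
    ¬ WeaklyInvertible 2 (nu (fun k => kap ^ k * Real.exp (-2 * lam k)))
      (fun z => Complex.exp (F z)) := by
  rintro ⟨-, P, hP⟩
  have hk0 := kap_pos
  have hk1 := kap_lt_one
  set w : ℕ → ℝ := fun k => kap ^ k * Real.exp (-2 * lam k) with hwdef
  have hw : ∀ k, 0 < w k := fun k => by rw [hwdef]; positivity
  have hwle : ∀ k, w k ≤ kap ^ k := by
    intro k
    rw [hwdef]
    have : Real.exp (-2 * lam k) ≤ 1 := by
      rw [Real.exp_le_one_iff]
      have := hlam k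
      linarith
    calc kap ^ k * Real.exp (-2 * lam k) ≤ kap ^ k * 1 :=
          mul_le_mul_of_nonneg_left this (by positivity)
      _ = kap ^ k := mul_one _
  have h1k : 0 < 1 - kap := by linarith
  have hsumw : ∀ K : ℕ, ∑ k ∈ Finset.range K, w k ≤ 1 / (1 - kap) := by
    intro K
    calc ∑ k ∈ Finset.range K, w k ≤ ∑ k ∈ Finset.range K, kap ^ k :=
          Finset.sum_le_sum fun k _ => hwle k
      _ ≤ 1 / (1 - kap) := by
          rw [le_div_iff₀ h1k]
          have := geom_sum_mul kap K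
          have h2 : (∑ k ∈ Finset.range K, kap ^ k) * (1 - kap) = 1 - kap ^ K := by linarith
          rw [h2]
          have : 0 < kap ^ K := by positivity
          linarith
  have h1le : 1 ≤ 1 / (1 - kap) := by
    rw [le_div_iff₀ h1k]; linarith
  set δ : ℝ := min 1 (Real.sqrt (w 0) / 2) with hδ
  have hδ0 : 0 < δ := lt_min one_pos (by have := Real.sqrt_pos.2 (hw 0); positivity)
  have hδ1 : δ ≤ 1 := min_le_left _ _
  have hδ2 : δ ^ 2 ≤ w 0 / 4 := by
    have : δ ≤ Real.sqrt (w 0) / 2 := min_le_right _ _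
    calc δ ^ 2 ≤ (Real.sqrt (w 0) / 2) ^ 2 := by
          apply pow_le_pow_left₀ hδ0.le this
      _ = w 0 / 4 := by
          rw [div_pow, Real.sq_sqrt (hw 0).le]; norm_num
  obtain ⟨n, hn⟩ := ((tendsto_order.1 hP).2 (ENNReal.ofReal δ) (ENNReal.ofReal_pos.2 hδ0)).exists
  set e : ℂ → ℂ := fun z => (P n).eval z * Complex.exp (F z) - 1 with hedef
  have he : DifferentiableOn ℂ e (Metric.ball 0 1) := by
    rw [hedef]
    exact (((P n).differentiable.differentiableOn).mul hF.cexp).sub (differentiableOn_const _)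
  have hsum : ∀ K : ℕ, ∑ k ∈ Finset.range K, w k * mean (fun θ => ‖e (pt (rr k) θ)‖ ^ 2)
      ≤ δ ^ 2 := by
    intro K
    have h1 := (le_normE w hw e he K).trans hn.le
    rw [ENNReal.ofReal_le_ofReal_iff hδ0.le] at h1
    rwa [Real.sqrt_le_left hδ0.le] at h1
  -- (a)
  have ha : ‖e 0‖ ≤ 1 / 2 := by
    have h1 := hsum 1
    rw [Finset.sum_range_one] at h1
    have h2 := mean_value e he 0
    have h3 : w 0 * ‖e 0‖ ^ 2 ≤ w 0 / 4 :=
      ((mul_le_mul_of_nonneg_left h2 (hw 0).le).trans h1).trans hδ2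
    have h4 : ‖e 0‖ ^ 2 ≤ 1 / 4 := by
      have h5 : w 0 * ‖e 0‖ ^ 2 ≤ w 0 * (1 / 4) := by linarith
      exact le_of_mul_le_mul_left h5 (hw 0)
    have h6 : ‖e 0‖ ^ 2 ≤ (1 / 2) ^ 2 := by linarith
    exact le_of_sq_le_sq h6 (by norm_num) |>.trans le_rfl
  -- (b)
  have hFc : ∀ k, Continuous (fun θ : ℝ => F (pt (rr k) θ)) := fun k =>
    hF.continuousOn.comp_continuous (zz_pt_cont k) (zz_pt_mem k)
  have hPc : ∀ k, Continuous (fun θ : ℝ => (P n).eval (pt (rr k) θ)) := fun k =>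
    (P n).continuous.comp (zz_pt_cont k)
  have hgc : ∀ k, Continuous (fun θ : ℝ => (P n).eval (pt (rr k) θ) *
      Complex.exp (F (pt (rr k) θ))) := fun k => (hPc k).mul (hFc k).cexp
  have hb : ∀ K : ℕ, ∑ k ∈ Finset.range K, kap ^ k * Real.exp (-2 * lam k) *
        mean (fun θ => ‖(P n).eval (pt (rr k) θ) * Complex.exp (F (pt (rr k) θ))‖ ^ 2)
        ≤ 4 / (1 - kap) := by
    intro K
    have h1 : ∀ k ∈ Finset.range K, kap ^ k * Real.exp (-2 * lam k) *
        mean (fun θ => ‖(P n).eval (pt (rr k) θ) * Complex.exp (F (pt (rr k) θ))‖ ^ 2)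
        ≤ 2 * (w k * mean (fun θ => ‖e (pt (rr k) θ)‖ ^ 2)) + 2 * w k := by
      intro k _
      have h2 : mean (fun θ => ‖(P n).eval (pt (rr k) θ) * Complex.exp (F (pt (rr k) θ))‖ ^ 2)
          ≤ 2 * mean (fun θ => ‖e (pt (rr k) θ)‖ ^ 2) + 2 := by
        apply zz_mean_le
        · exact ((hgc k).norm).pow 2
        · exact (((hgc k).sub continuous_const).norm).pow 2
        · intro θ
          have h3 : ‖(P n).eval (pt (rr k) θ) * Complex.exp (F (pt (rr k) θ))‖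
              ≤ ‖e (pt (rr k) θ)‖ + 1 := by
            have h4 : (P n).eval (pt (rr k) θ) * Complex.exp (F (pt (rr k) θ))
              = e (pt (rr k) θ) + 1 := by rw [hedef]; ring
            rw [h4]
            refine (norm_add_le _ _).trans ?_
            rw [norm_one]
          have h5 : 0 ≤ ‖(P n).eval (pt (rr k) θ) * Complex.exp (F (pt (rr k) θ))‖ :=
            norm_nonneg _
          nlinarith [sq_nonneg (‖e (pt (rr k) θ)‖ - 1), norm_nonneg (e (pt (rr k) θ))]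
      have h6 := mul_le_mul_of_nonneg_left h2 (hw k).le
      calc _ ≤ w k * (2 * mean (fun θ => ‖e (pt (rr k) θ)‖ ^ 2) + 2) := h6
        _ = _ := by ring
    refine (Finset.sum_le_sum h1).trans ?_
    rw [Finset.sum_add_distrib, ← Finset.mul_sum, ← Finset.mul_sum]
    have h2 := hsum K
    have h3 := hsumw K
    have h4 : δ ^ 2 ≤ 1 := pow_le_one₀ hδ0.le hδ1
    have h5 : (4:ℝ) / (1 - kap) = 4 * (1 / (1 - kap)) := by ring
    rw [h5]
    linarith
  have hc := hbound (P n) (4 / (1 - kap)) hb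
  have hsq : Real.sqrt (4 / (1 - kap) / (1 - kap)) = 2 / (1 - kap) := by
    rw [show (4:ℝ) / (1 - kap) / (1 - kap) = (2 / (1 - kap)) ^ 2 by
      rw [div_pow, div_div]; norm_num [sq]]
    exact Real.sqrt_sq (by positivity)
  rw [hsq] at hc
  have h0 : (P n).eval 0 * Complex.exp (F 0) = 1 + e 0 := by rw [hedef]; ring
  have h1 : (1:ℝ) / 2 ≤ ‖(P n).eval 0‖ * Real.exp (-Lam) := by
    have h2 : ‖Complex.exp (F 0)‖ = Real.exp (-Lam) := by
      rw [hF0, Complex.norm_exp]; simp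
    rw [← h2, ← norm_mul, h0]
    have h3 : ‖(1:ℂ)‖ ≤ ‖1 + e 0‖ + ‖e 0‖ := by
      calc ‖(1:ℂ)‖ = ‖(1 + e 0) - e 0‖ := by congr 1; ring
        _ ≤ _ := norm_sub_le _ _
    rw [norm_one] at h3
    linarith
  have h2 : (1:ℝ) / 2 ≤ Real.exp 2 * (2 / (1 - kap)) * Real.exp (-Lam) :=
    h1.trans (mul_le_mul_of_nonneg_right hc (Real.exp_pos _).le)
  rw [Real.exp_neg, ← div_eq_mul_inv, le_div_iff₀ (Real.exp_pos _)] at h2
  have h3 : 4 * Real.exp 2 / (1 - kap) = 2 * (Real.exp 2 * (2 / (1 - kap))) := by ring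
  rw [h3] at hLam
  linarith


end Pool.Agent.Helper265.WI.NotWI
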