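import Mathlib
import Pool.Agent.Helper265.WI.Base
set_option autoImplicit false
open MeasureTheory Polynomial Filter Topology

namespace Pool.Agent.Helper265.WI.OneStep


/-- exponentials -/
noncomputable def ee (k : ℤ) (θ : ℝ) : ℂ := Complex.exp ((k : ℂ) * (θ : ℂ) * Complex.I)

theorem ee_add (j k : ℤ) (θ : ℝ) : ee j θ * ee k θ = ee (j + k) θ := by
  unfold ee
  rw [← Complex.exp_add]
  congr 1
  push_cast
  ring

theorem ee_conj (k : ℤ) (θ : ℝ) : (starRingEnd ℂ) (ee k θ) = ee (-k) θ := by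
  unfold ee
  rw [← Complex.exp_conj]
  congr 1
  simp

theorem ee_cont (k : ℤ) : Continuous (ee k) := by
  unfold ee
  fun_prop

theorem ee_int (k : ℤ) : ∫ θ in (0:ℝ)..(2 * Real.pi), ee k θ =
    if k = 0 then (2 * Real.pi : ℂ) else 0 := by
  by_cases hk : k = 0
  · subst hk
    simp [ee]
  · rw [if_neg hk]
    have hc : (k : ℂ) * Complex.I ≠ 0 := mul_ne_zero (by exact_mod_cast hk) Complex.I_ne_zero
    have h : ∀ θ : ℝ, ee k θ = Complex.exp ((k : ℂ) * Complex.I * (θ : ℂ)) := by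
      intro θ
      unfold ee
      congr 1
      ring
    simp_rw [h]
    rw [integral_exp_mul_complex hc]
    have h1 : Complex.exp ((k : ℂ) * Complex.I * ((2 * Real.pi : ℝ) : ℂ)) = 1 := by
      rw [Complex.exp_eq_one_iff]
      refine ⟨k, ?_⟩
      push_cast
      ring
    rw [h1]
    simp

/-- complex mean -/
noncomputable def cI (u : ℝ → ℂ) : ℂ := (1 / (2 * Real.pi) : ℂ) * ∫ θ in (0:ℝ)..(2 * Real.pi), u θ

theorem cI_sum {ι : Type*} (S : Finset ι) (c : ι → ℂ) (f : ι → ℤ) :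
    cI (fun θ => ∑ i ∈ S, c i * ee (f i) θ) = ∑ i ∈ S, if f i = 0 then c i else 0 := by
  classical
  unfold cI
  rw [intervalIntegral.integral_finsetSum]
  · rw [Finset.mul_sum]
    refine Finset.sum_congr rfl (fun i _ => ?_)
    rw [intervalIntegral.integral_const_mul, ee_int]
    have hpi : (Real.pi : ℂ) ≠ 0 := by exact_mod_cast Real.pi_ne_zero
    split_ifs
    · field_simp
    · simp
  · intro i _
    exact ((continuous_const.mul (ee_cont _))).intervalIntegrable _ _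

theorem mean_cI (u : ℝ → ℝ) : (mean u : ℂ) = cI (fun θ => (u θ : ℂ)) := by
  unfold mean cI
  rw [intervalIntegral.integral_ofReal]
  push_cast
  ring

/-- truncated series -/
noncomputable def GG (N : ℕ) (r : ℝ) (q : ℂ[X]) (θ : ℝ) : ℂ :=
  ∑ m ∈ Finset.range N, (q.coeff m * (r : ℂ) ^ m) * ee m θ

theorem GG_cont (N : ℕ) (r : ℝ) (q : ℂ[X]) : Continuous (GG N r q) := by
  unfold GG
  exact continuous_finsetSum _ (fun m _ => continuous_const.mul (ee_cont _))

theorem GG_conj (N : ℕ) (r : ℝ) (q : ℂ[X]) (θ : ℝ) : (starRingEnd ℂ) (GG N r q θ) =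
    ∑ m ∈ Finset.range N, ((starRingEnd ℂ) (q.coeff m) * (r : ℂ) ^ m) * ee (-(m : ℤ)) θ := by
  unfold GG
  rw [map_sum]
  refine Finset.sum_congr rfl (fun m _ => ?_)
  rw [map_mul, map_mul, ee_conj, map_pow, Complex.conj_ofReal]

theorem GG_mul_conj (D N : ℕ) (r : ℝ) (q : ℂ[X]) (θ : ℝ) :
    GG D r q θ * (starRingEnd ℂ) (GG N r q θ) =
    ∑ p ∈ Finset.range D ×ˢ Finset.range N,
      ((q.coeff p.1 * (r : ℂ) ^ p.1) * ((starRingEnd ℂ) (q.coeff p.2) * (r : ℂ) ^ p.2)) *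
        ee ((p.1 : ℤ) - (p.2 : ℤ)) θ := by
  rw [GG_conj]
  unfold GG
  rw [Finset.sum_mul_sum, Finset.sum_product]
  refine Finset.sum_congr rfl (fun i _ => Finset.sum_congr rfl (fun j _ => ?_))
  rw [sub_eq_add_neg, ← ee_add]
  ring

theorem V_sq (N : ℕ) (r : ℝ) (q : ℂ[X]) :
    V N r q ^ 2 = ∑ m ∈ Finset.range N, ‖q.coeff m‖ ^ 2 * r ^ (2 * m) := by
  unfold V
  rw [Real.sq_sqrt]
  refine Finset.sum_nonneg (fun m _ => ?_)
  have : 0 ≤ r ^ (2 * m) := by rw [pow_mul]; positivity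
  positivity

theorem diag_sum (D N : ℕ) (hDN : N ≤ D) (r : ℝ) (q : ℂ[X]) :
    (∑ p ∈ Finset.range D ×ˢ Finset.range N, if ((p.1 : ℤ) - (p.2 : ℤ)) = 0 then
      ((q.coeff p.1 * (r : ℂ) ^ p.1) * ((starRingEnd ℂ) (q.coeff p.2) * (r : ℂ) ^ p.2)) else 0)
      = ((V N r q ^ 2 : ℝ) : ℂ) := by
  rw [V_sq, Finset.sum_product_right]
  push_cast
  refine Finset.sum_congr rfl (fun k hk => ?_)
  have hk' : k ∈ Finset.range D := Finset.mem_range.mpr (lt_of_lt_of_le (Finset.mem_range.mp hk) hDN)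
  rw [Finset.sum_eq_single_of_mem k hk']
  · simp only [sub_self, if_true]
    have h1 : q.coeff k * (starRingEnd ℂ) (q.coeff k) = ((‖q.coeff k‖ : ℝ) : ℂ) ^ 2 := by
      rw [Complex.mul_conj, Complex.normSq_eq_norm_sq]
      push_cast
      rfl
    rw [← h1]
    ring
  · intro b _ hb
    rw [if_neg]
    intro h
    apply hb
    omega

theorem cI_GG (D N : ℕ) (hDN : N ≤ D) (r : ℝ) (q : ℂ[X]) :
    cI (fun θ => GG D r q θ * (starRingEnd ℂ) (GG N r q θ)) = ((V N r q ^ 2 : ℝ) : ℂ) := by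
  simp_rw [GG_mul_conj]
  rw [cI_sum, diag_sum D N hDN]

theorem mean_GG (N : ℕ) (r : ℝ) (q : ℂ[X]) :
    mean (fun θ => ‖GG N r q θ‖ ^ 2) = V N r q ^ 2 := by
  have h := cI_GG N N le_rfl r q
  have h2 := mean_cI (fun θ => ‖GG N r q θ‖ ^ 2)
  have h3 : (fun θ => GG N r q θ * (starRingEnd ℂ) (GG N r q θ)) =
      (fun θ => (((‖GG N r q θ‖ ^ 2 : ℝ)) : ℂ)) := by
    funext θ
    rw [Complex.mul_conj, Complex.normSq_eq_norm_sq]
  rw [h3] at h
  rw [h] at h2
  exact_mod_cast h2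

theorem eval_GG (D : ℕ) (r : ℝ) (q : ℂ[X]) (hD : q.natDegree < D) (θ : ℝ) :
    q.eval (pt r θ) = GG D r q θ := by
  rw [Polynomial.eval_eq_sum_range' hD]
  unfold GG
  refine Finset.sum_congr rfl (fun m _ => ?_)
  unfold pt ee
  rw [mul_pow, ← Complex.exp_nat_mul]
  rw [mul_assoc]
  congr 3
  push_cast
  ring

/-- frequency gap -/
theorem gap_zero (c : ℤ → ℂ) (M n N N' D : ℕ) (hN' : N + M * n ≤ N') (r : ℝ) (q : ℂ[X]) :
    cI (fun θ => (∑ m ∈ Finset.Icc (-(M : ℤ)) (M : ℤ), c m * ee (m * n) θ) *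
      ((∑ j ∈ Finset.Ico N' D, (q.coeff j * (r : ℂ) ^ j) * ee j θ) *
        (starRingEnd ℂ) (GG N r q θ))) = 0 := by
  have h : (fun θ => (∑ m ∈ Finset.Icc (-(M : ℤ)) (M : ℤ), c m * ee (m * n) θ) *
      ((∑ j ∈ Finset.Ico N' D, (q.coeff j * (r : ℂ) ^ j) * ee j θ) *
        (starRingEnd ℂ) (GG N r q θ))) =
      (fun θ => ∑ p ∈ Finset.Icc (-(M : ℤ)) (M : ℤ) ×ˢ (Finset.Ico N' D ×ˢ Finset.range N),
        (c p.1 * ((q.coeff p.2.1 * (r : ℂ) ^ p.2.1) *
          ((starRingEnd ℂ) (q.coeff p.2.2) * (r : ℂ) ^ p.2.2))) *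
          ee (p.1 * n + ((p.2.1 : ℤ) + (-(p.2.2 : ℤ)))) θ) := by
    funext θ
    rw [GG_conj, Finset.sum_mul_sum, ← Finset.sum_product', Finset.sum_mul_sum,
      ← Finset.sum_product']
    refine Finset.sum_congr rfl (fun p _ => ?_)
    rw [← ee_add, ← ee_add]
    ring
  rw [h, cI_sum]
  refine Finset.sum_eq_zero (fun p hp => ?_)
  rw [if_neg]
  simp only [Finset.mem_product, Finset.mem_Icc, Finset.mem_Ico, Finset.mem_range] at hp
  obtain ⟨⟨h1, h2⟩, ⟨h3, h4⟩, h5⟩ := hp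
  have h6 : -((M : ℤ) * n) ≤ p.1 * n := by
    have : (-(M : ℤ)) * n ≤ p.1 * n := mul_le_mul_of_nonneg_right h1 (by positivity)
    linarith
  have h7 : ((N : ℤ) + (M : ℤ) * n) ≤ N' := by exact_mod_cast hN'
  have h8 : (N' : ℤ) ≤ p.2.1 := by exact_mod_cast h3
  have h9 : (p.2.2 : ℤ) < N := by exact_mod_cast h5
  omega

/-- decoupling -/
theorem decouple (c : ℤ → ℂ) (M n N : ℕ) (hn : 0 < n) (hN : N ≤ n) (r : ℝ) (q : ℂ[X]) :
    cI (fun θ => ((∑ m ∈ Finset.Icc (-(M : ℤ)) (M : ℤ), c m * ee (m * n) θ) *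
      (∑ m ∈ Finset.Icc (-(M : ℤ)) (M : ℤ), c m * ee (m * n) θ)) *
      (GG N r q θ * (starRingEnd ℂ) (GG N r q θ))) =
    cI (fun θ => (∑ m ∈ Finset.Icc (-(M : ℤ)) (M : ℤ), c m * ee m θ) *
      (∑ m ∈ Finset.Icc (-(M : ℤ)) (M : ℤ), c m * ee m θ)) * ((V N r q ^ 2 : ℝ) : ℂ) := by
  have h : (fun θ => ((∑ m ∈ Finset.Icc (-(M : ℤ)) (M : ℤ), c m * ee (m * n) θ) *
      (∑ m ∈ Finset.Icc (-(M : ℤ)) (M : ℤ), c m * ee (m * n) θ)) *
      (GG N r q θ * (starRingEnd ℂ) (GG N r q θ))) =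
      (fun θ => ∑ p ∈ (Finset.Icc (-(M : ℤ)) (M : ℤ) ×ˢ Finset.Icc (-(M : ℤ)) (M : ℤ)) ×ˢ
        (Finset.range N ×ˢ Finset.range N),
        ((c p.1.1 * c p.1.2) * ((q.coeff p.2.1 * (r : ℂ) ^ p.2.1) *
          ((starRingEnd ℂ) (q.coeff p.2.2) * (r : ℂ) ^ p.2.2))) *
          ee ((p.1.1 * n + p.1.2 * n) + ((p.2.1 : ℤ) - (p.2.2 : ℤ))) θ) := by
    funext θ
    rw [GG_mul_conj, Finset.sum_mul_sum, ← Finset.sum_product', Finset.sum_mul_sum,
      ← Finset.sum_product']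
    refine Finset.sum_congr rfl (fun p _ => ?_)
    rw [← ee_add, ← ee_add]
    ring
  have h2 : (fun θ => (∑ m ∈ Finset.Icc (-(M : ℤ)) (M : ℤ), c m * ee m θ) *
      (∑ m ∈ Finset.Icc (-(M : ℤ)) (M : ℤ), c m * ee m θ)) =
      (fun θ => ∑ p ∈ (Finset.Icc (-(M : ℤ)) (M : ℤ) ×ˢ Finset.Icc (-(M : ℤ)) (M : ℤ)),
        (c p.1 * c p.2) * ee (p.1 + p.2) θ) := by
    funext θ
    rw [Finset.sum_mul_sum, ← Finset.sum_product']
    refine Finset.sum_congr rfl (fun p _ => ?_)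
    rw [← ee_add]
    ring
  rw [h, h2, cI_sum, cI_sum, ← diag_sum N N le_rfl, Finset.sum_mul_sum, ← Finset.sum_product']
  refine Finset.sum_congr rfl (fun p hp => ?_)
  simp only [Finset.mem_product, Finset.mem_Icc, Finset.mem_range] at hp
  obtain ⟨_, h5, h6⟩ := hp
  have hz : ((p.1.1 * n + p.1.2 * n) + ((p.2.1 : ℤ) - (p.2.2 : ℤ)) = 0) ↔
      (p.1.1 + p.1.2 = 0 ∧ (p.2.1 : ℤ) - (p.2.2 : ℤ) = 0) := by
    constructor
    · intro hz
      have h7 : (p.1.1 + p.1.2) * (n : ℤ) = (p.2.2 : ℤ) - (p.2.1 : ℤ) := by linarith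
      have h8 : (p.1.1 + p.1.2) = 0 := by
        by_contra hne
        have h9 : (n : ℤ) ≤ |(p.1.1 + p.1.2) * (n : ℤ)| := by
          rw [abs_mul]
          have : 1 ≤ |p.1.1 + p.1.2| := Int.one_le_abs hne
          have h10 : |(n : ℤ)| = n := abs_of_nonneg (by positivity)
          rw [h10]
          nlinarith
        rw [h7] at h9
        have h11 : |(p.2.2 : ℤ) - (p.2.1 : ℤ)| < n := by
          rw [abs_lt]
          constructor <;> omega
        omega
      refine ⟨h8, ?_⟩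
      rw [h8, zero_mul] at h7
      omega
    · rintro ⟨h1, h2⟩
      have : (p.1.1 * n + p.1.2 * n) = (p.1.1 + p.1.2) * (n : ℤ) := by ring
      rw [this, h1, h2]
      simp
  by_cases ha : p.1.1 + p.1.2 = 0
  · by_cases hb : (p.2.1 : ℤ) - (p.2.2 : ℤ) = 0
    · rw [if_pos (hz.mpr ⟨ha, hb⟩), if_pos ha, if_pos hb]
    · rw [if_neg (fun hh => hb (hz.mp hh).2), if_neg hb, mul_zero]
  · rw [if_neg (fun hh => ha (hz.mp hh).1), if_neg ha, zero_mul]

theorem mean_nonneg {u : ℝ → ℝ} (hu : ∀ t, 0 ≤ u t) : 0 ≤ mean u := by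
  unfold mean
  have := intervalIntegral.integral_nonneg (μ := volume) (a := 0) (b := 2 * Real.pi)
    Real.two_pi_pos.le (fun t _ => hu t)
  have hpi := Real.pi_pos
  positivity

theorem mean_mono {u v : ℝ → ℝ} (hu : Continuous u) (hv : Continuous v) (h : ∀ t, u t ≤ v t) :
    mean u ≤ mean v := by
  unfold mean
  have := intervalIntegral.integral_mono (μ := volume) (a := 0) (b := 2 * Real.pi)
    Real.two_pi_pos.le (hu.intervalIntegrable _ _) (hv.intervalIntegrable _ _) h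
  have hpi := Real.pi_pos
  exact mul_le_mul_of_nonneg_left this (by positivity)

theorem mean_CS {f g : ℝ → ℝ} (hf : Continuous f) (hg : Continuous g) :
    mean (fun t => f t * g t) ≤ Real.sqrt (mean (fun t => f t ^ 2)) *
      Real.sqrt (mean (fun t => g t ^ 2)) := by
  rw [← Real.sqrt_mul (mean_nonneg (fun t => sq_nonneg _))]
  apply Real.le_sqrt_of_sq_le
  have key : ∀ x : ℝ, 0 ≤ mean (fun t => f t ^ 2) * (x * x) +
      (2 * mean (fun t => f t * g t)) * x + mean (fun t => g t ^ 2) := by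
    intro x
    have h1 : 0 ≤ mean (fun t => (x * f t + g t) ^ 2) := mean_nonneg (fun t => sq_nonneg _)
    have h2 : mean (fun t => (x * f t + g t) ^ 2) = mean (fun t => f t ^ 2) * (x * x) +
      (2 * mean (fun t => f t * g t)) * x + mean (fun t => g t ^ 2) := by
      unfold mean
      have h3 : ∀ t, (x * f t + g t) ^ 2 = (x * x) * f t ^ 2 + (2 * x) * (f t * g t) + g t ^ 2 := by
        intro t; ring
      simp_rw [h3]
      rw [intervalIntegral.integral_add, intervalIntegral.integral_add,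
        intervalIntegral.integral_const_mul, intervalIntegral.integral_const_mul]
      · ring
      · exact (continuous_const.mul (hf.pow 2)).intervalIntegrable _ _
      · exact (continuous_const.mul (hf.mul hg)).intervalIntegrable _ _
      · exact ((continuous_const.mul (hf.pow 2)).add
          (continuous_const.mul (hf.mul hg))).intervalIntegrable _ _
      · exact (hg.pow 2).intervalIntegrable _ _
    linarith
  have hd := discrim_le_zero key
  unfold discrim at hd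
  nlinarith

theorem norm_cI_le {u : ℝ → ℂ} : ‖cI u‖ ≤ mean (fun t => ‖u t‖) := by
  unfold cI mean
  rw [norm_mul]
  have hpi := Real.pi_pos
  have h1 : ‖(1 / (2 * Real.pi) : ℂ)‖ = 1 / (2 * Real.pi) := by
    have : (1 / (2 * Real.pi) : ℂ) = ((1 / (2 * Real.pi) : ℝ) : ℂ) := by push_cast; rfl
    rw [this, Complex.norm_real, Real.norm_of_nonneg (by positivity)]
  rw [h1]
  refine mul_le_mul_of_nonneg_left ?_ (by positivity)
  exact intervalIntegral.norm_integral_le_integral_norm Real.two_pi_pos.le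

/-- TARGET. One step of the sweeping. -/
theorem one_step (a : ℝ → ℝ) (M : ℕ) (ha : TP M (fun t => (a t : ℂ)))
    (h01 : ∀ t, 0 ≤ a t ∧ a t ≤ 1) (hc : 1/4 ≤ ∫ t in (0:ℝ)..(2 * Real.pi), a t)
    (N n N' : ℕ) (hn : 0 < n) (hN : N ≤ n) (hN' : N + M * n ≤ N')
    (r : ℝ) (hr : 0 < r) (q : ℂ[X]) :
    V N r q ≤ Real.sqrt (mean (fun θ => (a (n * θ)) ^ 2 * ‖q.eval (pt r θ)‖ ^ 2))
      + kap * V N' r q := by
  have hpi := Real.pi_pos
  obtain ⟨c0, hc0'⟩ := ha
  have hc0 : ∀ t : ℝ, (a t : ℂ) = ∑ m ∈ Finset.Icc (-(M : ℤ)) (M : ℤ),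
    c0 m * Complex.exp ((m : ℂ) * (t : ℂ) * Complex.I) := hc0'
  -- continuity of `a`
  have hac : Continuous a := by
    have h1 : Continuous (fun t => (a t : ℂ)) := by
      have : (fun t : ℝ => (a t : ℂ)) = fun t : ℝ => ∑ m ∈ Finset.Icc (-(M : ℤ)) (M : ℤ),
          c0 m * Complex.exp ((m : ℂ) * (t : ℂ) * Complex.I) := funext hc0
      rw [this]
      fun_prop
    exact Complex.continuous_re.comp h1
  have hAc : Continuous (fun θ : ℝ => a (n * θ)) := hac.comp (continuous_const.mul continuous_id)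
  -- coefficients of `1 - a`
  set c : ℤ → ℂ := fun m => (if m = 0 then 1 else 0) - c0 m with hcdef
  have hc1 : ∀ t : ℝ, ((1 - a t : ℝ) : ℂ) = ∑ m ∈ Finset.Icc (-(M : ℤ)) (M : ℤ), c m * ee m t := by
    intro t
    have h0 : (0 : ℤ) ∈ Finset.Icc (-(M : ℤ)) (M : ℤ) := by
      rw [Finset.mem_Icc]; constructor <;> omega
    have h1 : ∑ m ∈ Finset.Icc (-(M : ℤ)) (M : ℤ), c m * ee m t =
        (∑ m ∈ Finset.Icc (-(M : ℤ)) (M : ℤ), (if m = 0 then (1 : ℂ) else 0) * ee m t) -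
        ∑ m ∈ Finset.Icc (-(M : ℤ)) (M : ℤ), c0 m * ee m t := by
      rw [← Finset.sum_sub_distrib]
      refine Finset.sum_congr rfl (fun m _ => ?_)
      rw [hcdef]
      ring
    rw [h1, Finset.sum_eq_single_of_mem 0 h0 (fun b _ hb => by rw [if_neg hb, zero_mul])]
    push_cast
    rw [hc0 t]
    simp [ee]
  have hc2 : ∀ θ : ℝ, ((1 - a (n * θ) : ℝ) : ℂ) =
      ∑ m ∈ Finset.Icc (-(M : ℤ)) (M : ℤ), c m * ee (m * n) θ := by
    intro θ
    rw [hc1]
    refine Finset.sum_congr rfl (fun m _ => ?_)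
    unfold ee
    congr 2
    push_cast
    ring
  set D := q.natDegree + 1 + N + N' with hD
  have hQ : ∀ θ, q.eval (pt r θ) = GG D r q θ := eval_GG D r q (by omega)
  simp_rw [hQ]
  have hsplit : ∀ θ, GG D r q θ = GG N' r q θ +
      ∑ j ∈ Finset.Ico N' D, (q.coeff j * (r : ℂ) ^ j) * ee j θ := by
    intro θ
    unfold GG
    rw [Finset.sum_range_add_sum_Ico _ (by omega)]
  -- the splitting
  have hmain : ((V N r q ^ 2 : ℝ) : ℂ) =
      cI (fun θ => ((a (n * θ) : ℝ) : ℂ) * (GG D r q θ * (starRingEnd ℂ) (GG N r q θ))) +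
      cI (fun θ => ((1 - a (n * θ) : ℝ) : ℂ) * (GG N' r q θ * (starRingEnd ℂ) (GG N r q θ))) := by
    rw [← cI_GG D N (by omega)]
    have hg := gap_zero c M n N N' D hN' r q
    simp_rw [← hc2] at hg
    rw [← add_zero (cI (fun θ => ((a (n * θ) : ℝ) : ℂ) * _) + _), ← hg]
    unfold cI
    rw [← mul_add, ← mul_add]
    have i1 : IntervalIntegrable (fun θ => ((a (n * θ) : ℝ) : ℂ) *
        (GG D r q θ * (starRingEnd ℂ) (GG N r q θ))) volume 0 (2 * Real.pi) :=
      ((Complex.continuous_ofReal.comp hAc).mul ((GG_cont D r q).mul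
        (Complex.continuous_conj.comp (GG_cont N r q)))).intervalIntegrable _ _
    have i2 : IntervalIntegrable (fun θ => ((1 - a (n * θ) : ℝ) : ℂ) *
        (GG N' r q θ * (starRingEnd ℂ) (GG N r q θ))) volume 0 (2 * Real.pi) :=
      ((Complex.continuous_ofReal.comp (continuous_const.sub hAc)).mul ((GG_cont N' r q).mul
        (Complex.continuous_conj.comp (GG_cont N r q)))).intervalIntegrable _ _
    have i3 : IntervalIntegrable (fun θ => ((1 - a (n * θ) : ℝ) : ℂ) *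
        ((∑ j ∈ Finset.Ico N' D, (q.coeff j * (r : ℂ) ^ j) * ee j θ) *
          (starRingEnd ℂ) (GG N r q θ))) volume 0 (2 * Real.pi) :=
      ((Complex.continuous_ofReal.comp (continuous_const.sub hAc)).mul
        ((continuous_finsetSum _ (fun m _ => continuous_const.mul (ee_cont _))).mul
        (Complex.continuous_conj.comp (GG_cont N r q)))).intervalIntegrable _ _
    rw [← intervalIntegral.integral_add i1 i2, ← intervalIntegral.integral_add (i1.add i2) i3]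
    congr 1
    refine intervalIntegral.integral_congr (fun θ _ => ?_)
    simp only [hsplit θ]
    push_cast
    ring
  have hV0 : ∀ K, 0 ≤ V K r q := fun K => Real.sqrt_nonneg _
  have h1 : V N r q ^ 2 ≤
      mean (fun θ => (a (n * θ) * ‖GG D r q θ‖) * ‖GG N r q θ‖) +
      mean (fun θ => ‖GG N' r q θ‖ * ((1 - a (n * θ)) * ‖GG N r q θ‖)) := by
    have h2 : V N r q ^ 2 = ‖((V N r q ^ 2 : ℝ) : ℂ)‖ := by
      rw [Complex.norm_real, Real.norm_of_nonneg (sq_nonneg _)]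
    rw [h2, hmain]
    refine (norm_add_le _ _).trans (add_le_add ?_ ?_)
    · refine norm_cI_le.trans (le_of_eq ?_)
      congr 1
      funext θ
      rw [norm_mul, norm_mul, Complex.norm_real, Real.norm_of_nonneg (h01 _).1, RCLike.norm_conj]
      ring
    · refine norm_cI_le.trans (le_of_eq ?_)
      congr 1
      funext θ
      rw [norm_mul, norm_mul, Complex.norm_real,
        Real.norm_of_nonneg (sub_nonneg.mpr (h01 _).2), RCLike.norm_conj]
      ring
  have hgn : ∀ K, Continuous (fun θ => ‖GG K r q θ‖) := fun K => (GG_cont K r q).norm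
  have hk1 : Continuous (fun θ => a (n * θ) * ‖GG D r q θ‖) := hAc.mul (hgn D)
  have hk2 : Continuous (fun θ => (1 - a (n * θ)) * ‖GG N r q θ‖) :=
    (continuous_const.sub hAc).mul (hgn N)
  have h2 := mean_CS hk1 (hgn N)
  have h3 := mean_CS (hgn N') hk2
  rw [mean_GG] at h2
  rw [mean_GG] at h3
  rw [Real.sqrt_sq (hV0 _)] at h2 h3
  -- decoupling
  have h4 : mean (fun θ => ((1 - a (n * θ)) * ‖GG N r q θ‖) ^ 2) =
      mean (fun θ => (1 - a θ) ^ 2) * V N r q ^ 2 := by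
    have hd := decouple c M n N hn hN r q
    simp_rw [← hc2, ← hc1] at hd
    have h5 := mean_cI (fun θ => ((1 - a (n * θ)) * ‖GG N r q θ‖) ^ 2)
    have h6 := mean_cI (fun θ => (1 - a θ) ^ 2)
    have h7 : (fun θ => ((((1 - a (n * θ)) * ‖GG N r q θ‖) ^ 2 : ℝ) : ℂ)) =
      (fun θ => (((1 - a (n * θ) : ℝ) : ℂ) * ((1 - a (n * θ) : ℝ) : ℂ)) *
      (GG N r q θ * (starRingEnd ℂ) (GG N r q θ))) := by
      funext θ
      rw [Complex.mul_conj, Complex.normSq_eq_norm_sq]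
      push_cast
      ring
    have h8 : (fun θ => (((1 - a θ) ^ 2 : ℝ) : ℂ)) =
      (fun θ => ((1 - a θ : ℝ) : ℂ) * ((1 - a θ : ℝ) : ℂ)) := by
      funext θ
      push_cast
      ring
    rw [h7, hd, ← h8, ← h6] at h5
    exact_mod_cast h5
  have h5 : mean (fun θ => (1 - a θ) ^ 2) ≤ 1 - 1 / (8 * Real.pi) := by
    have h6 : mean (fun θ => (1 - a θ) ^ 2) ≤ mean (fun θ => 1 - a θ) := by
      refine mean_mono ((continuous_const.sub hac).pow 2) (continuous_const.sub hac) (fun t => ?_)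
      have := h01 t
      nlinarith
    have h7 : mean (fun θ => 1 - a θ) = 1 - (1 / (2 * Real.pi)) * ∫ t in (0:ℝ)..(2 * Real.pi), a t := by
      unfold mean
      rw [intervalIntegral.integral_sub (continuous_const.intervalIntegrable _ _)
        (hac.intervalIntegrable _ _)]
      simp only [intervalIntegral.integral_const, smul_eq_mul, sub_zero, mul_one]
      field_simp
    rw [h7] at h6
    have h8 : (1 / (2 * Real.pi)) * (1 / 4) ≤
        (1 / (2 * Real.pi)) * ∫ t in (0:ℝ)..(2 * Real.pi), a t :=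
      mul_le_mul_of_nonneg_left hc (by positivity)
    have h9 : (1 / (2 * Real.pi)) * (1 / 4) = 1 / (8 * Real.pi) := by
      field_simp
      norm_num
    linarith
  have h6 : Real.sqrt (mean (fun θ => ((1 - a (n * θ)) * ‖GG N r q θ‖) ^ 2)) ≤
      kap * V N r q := by
    rw [h4]
    have h7 : kap * V N r q = Real.sqrt ((1 - 1 / (8 * Real.pi)) * V N r q ^ 2) := by
      unfold kap
      rw [Real.sqrt_mul' _ (sq_nonneg _), Real.sqrt_sq (hV0 _)]
    rw [h7]
    exact Real.sqrt_le_sqrt (mul_le_mul_of_nonneg_right h5 (sq_nonneg _))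
  have h7 : V N r q ^ 2 ≤ (Real.sqrt (mean (fun θ => (a (n * θ) * ‖GG D r q θ‖) ^ 2)) +
      kap * V N' r q) * V N r q := by
    have h8 : V N' r q * Real.sqrt (mean (fun θ => ((1 - a (n * θ)) * ‖GG N r q θ‖) ^ 2)) ≤
      V N' r q * (kap * V N r q) := mul_le_mul_of_nonneg_left h6 (hV0 _)
    nlinarith
  have h8 : (fun θ => a (n * θ) ^ 2 * ‖GG D r q θ‖ ^ 2) =
      (fun θ => (a (n * θ) * ‖GG D r q θ‖) ^ 2) := by
    funext θ
    ring
  rw [h8]
  have h9 : 0 ≤ Real.sqrt (mean (fun θ => (a (n * θ) * ‖GG D r q θ‖) ^ 2)) +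
      kap * V N' r q := by
    have : 0 ≤ kap := Real.sqrt_nonneg _
    have := hV0 N'
    positivity
  rcases (hV0 N).eq_or_lt with h0 | h0
  · rw [← h0]
    exact h9
  · have : V N r q * V N r q ≤ (Real.sqrt (mean (fun θ => (a (n * θ) * ‖GG D r q θ‖) ^ 2)) +
      kap * V N' r q) * V N r q := by rw [← sq]; exact h7
    exact le_of_mul_le_mul_right this h0

end Pool.Agent.Helper265.WI.OneStep
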