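import Mathlib
import Pool.Agent.Helper265.WI.Base
set_option autoImplicit false
open MeasureTheory Polynomial Filter Topology

namespace Pool.Agent.Helper265.WI.Wave


theorem exists_wave_split (M : ℕ) (f : ℤ → ℂ) :
    ∑ m ∈ Finset.Icc (-(M : ℤ)) (M : ℤ), f m
      = f 0 + ∑ m ∈ Finset.range M, (f ((m : ℤ) + 1) + f (-((m : ℤ) + 1))) := by
  induction M with
  | zero => simp
  | succ M ih =>
    rw [Finset.sum_range_succ, ← add_assoc, ← ih]
    have h : Finset.Icc (-((M + 1 : ℕ) : ℤ)) ((M + 1 : ℕ) : ℤ)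
        = insert ((M : ℤ) + 1) (insert (-((M : ℤ) + 1)) (Finset.Icc (-(M : ℤ)) (M : ℤ))) := by
      ext x
      simp only [Finset.mem_Icc, Finset.mem_insert]
      push_cast
      omega
    rw [h, Finset.sum_insert, Finset.sum_insert]
    · ring
    · simp only [Finset.mem_Icc]; omega
    · simp only [Finset.mem_Icc, Finset.mem_insert]; omega

theorem exists_wave_c0 (M : ℕ) (χ : ℝ → ℝ) (c : ℤ → ℂ)
    (hc : ∀ t : ℝ, (χ t : ℂ) = ∑ m ∈ Finset.Icc (-(M : ℤ)) (M : ℤ),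
      c m * Complex.exp ((m : ℂ) * (t : ℂ) * Complex.I))
    (hmean : (∫ t in (0:ℝ)..(2 * Real.pi), χ t) = 0) : c 0 = 0 := by
  have h1 : (∫ t in (0:ℝ)..(2 * Real.pi), (χ t : ℂ)) = 0 := by
    rw [intervalIntegral.integral_ofReal, hmean]; simp
  have h2 : (∫ t in (0:ℝ)..(2 * Real.pi), (χ t : ℂ)) =
      ∑ m ∈ Finset.Icc (-(M : ℤ)) (M : ℤ), ∫ t in (0:ℝ)..(2 * Real.pi),
        c m * Complex.exp ((m : ℂ) * (t : ℂ) * Complex.I) := by
    rw [← intervalIntegral.integral_finsetSum]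
    · exact intervalIntegral.integral_congr fun t _ => hc t
    · intro m _
      exact (Continuous.intervalIntegrable (by fun_prop) _ _)
  have h3 : ∀ m : ℤ, m ≠ 0 → (∫ t in (0:ℝ)..(2 * Real.pi),
        c m * Complex.exp ((m : ℂ) * (t : ℂ) * Complex.I)) = 0 := by
    intro m hm
    have hmI : (m : ℂ) * Complex.I ≠ 0 := mul_ne_zero (by exact_mod_cast hm) Complex.I_ne_zero
    have h4 : ∀ t : ℝ, c m * Complex.exp ((m : ℂ) * (t : ℂ) * Complex.I)
        = c m * Complex.exp (((m : ℂ) * Complex.I) * (t : ℂ)) := by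
      intro t; congr 2; ring
    simp only [h4]
    rw [intervalIntegral.integral_const_mul, integral_exp_mul_complex hmI]
    have h5 : Complex.exp ((m : ℂ) * Complex.I * ((2 * Real.pi : ℝ) : ℂ)) = 1 := by
      have := Complex.exp_int_mul_two_pi_mul_I m
      rw [← this]; congr 1; push_cast; ring
    rw [h5]; simp
  have h6 : (∑ m ∈ Finset.Icc (-(M : ℤ)) (M : ℤ), ∫ t in (0:ℝ)..(2 * Real.pi),
        c m * Complex.exp ((m : ℂ) * (t : ℂ) * Complex.I)) = 2 * Real.pi * c 0 := by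
    rw [Finset.sum_eq_single (0 : ℤ)]
    · simp
    · intro m _ hm; exact h3 m hm
    · intro h; exfalso; apply h; simp
  rw [h1, h6] at h2
  have hpi : (2 * (Real.pi : ℂ)) ≠ 0 := by
    exact_mod_cast mul_ne_zero two_ne_zero Real.pi_ne_zero
  exact (mul_eq_zero.1 h2.symm).resolve_left hpi

theorem exists_wave_b (M : ℕ) (χ : ℝ → ℝ) (hχ : TP M (fun t => (χ t : ℂ)))
    (hmean : (∫ t in (0:ℝ)..(2 * Real.pi), χ t) = 0) :
    ∃ b : ℕ → ℂ, ∀ t : ℝ, χ t = (∑ m ∈ Finset.range M,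
      b m * Complex.exp ((t : ℂ) * Complex.I) ^ (m + 1)).re := by
  obtain ⟨c, hc⟩ := hχ
  have h0 := exists_wave_c0 M χ c hc hmean
  replace hc : ∀ t : ℝ, (χ t : ℂ) = ∑ m ∈ Finset.Icc (-(M : ℤ)) (M : ℤ),
      c m * Complex.exp ((m : ℂ) * (t : ℂ) * Complex.I) := hc
  refine ⟨fun m => c ((m : ℤ) + 1) + (starRingEnd ℂ) (c (-((m : ℤ) + 1))), fun t => ?_⟩
  have h1 : χ t = ((χ t : ℂ)).re := (Complex.ofReal_re _).symm
  beta_reduce
  rw [h1, hc t, exists_wave_split, h0, Complex.add_re, Complex.re_sum, Complex.re_sum]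
  simp only [zero_mul, Complex.zero_re, zero_add]
  refine Finset.sum_congr rfl fun m _ => ?_
  have hw : Complex.exp ((t : ℂ) * Complex.I) ^ (m + 1) =
      Complex.exp ((((m : ℤ) + 1 : ℤ) : ℂ) * (t : ℂ) * Complex.I) := by
    rw [← Complex.exp_nat_mul]; congr 1; push_cast; ring
  have hw' : Complex.exp (((-((m : ℤ) + 1) : ℤ) : ℂ) * (t : ℂ) * Complex.I) =
      (starRingEnd ℂ) (Complex.exp ((((m : ℤ) + 1 : ℤ) : ℂ) * (t : ℂ) * Complex.I)) := by
    rw [← Complex.exp_conj]; congr 1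
    simp only [map_mul, Complex.conj_I, Complex.conj_ofReal, map_intCast]
    push_cast; ring
  rw [hw, hw', add_mul, Complex.add_re, Complex.add_re]
  congr 1
  rw [← Complex.conj_re ((starRingEnd ℂ) (c (-((m : ℤ) + 1))) *
    Complex.exp ((((m : ℤ) + 1 : ℤ) : ℂ) * (t : ℂ) * Complex.I))]
  rw [map_mul, Complex.conj_conj]

/-- shifted polynomial -/
noncomputable def exists_wave_E (Φ : ℂ[X]) (r lam : ℝ) (n : ℕ) : ℂ[X] :=
  C (lam : ℂ) * (C ((r : ℂ)⁻¹) * X) ^ n - C (1 / 2) * (Φ * (C ((r : ℂ)⁻¹) * X) ^ n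
    + ∑ l ∈ Finset.range (Φ.natDegree + 1),
      C ((starRingEnd ℂ) (Φ.coeff l) * (r : ℂ) ^ l) * (C ((r : ℂ)⁻¹) * X) ^ (n - l))

theorem exists_wave_E_eval (Φ : ℂ[X]) (r lam : ℝ) (n : ℕ) (z : ℂ) :
    (exists_wave_E Φ r lam n).eval z = (lam : ℂ) * ((r : ℂ)⁻¹ * z) ^ n
      - (1 / 2) * (Φ.eval z * ((r : ℂ)⁻¹ * z) ^ n
      + ∑ l ∈ Finset.range (Φ.natDegree + 1),
        (starRingEnd ℂ) (Φ.coeff l) * (r : ℂ) ^ l * ((r : ℂ)⁻¹ * z) ^ (n - l)) := by
  unfold exists_wave_E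
  simp only [eval_sub, eval_mul, eval_add, eval_finsetSum, eval_pow, eval_C, eval_X]

theorem exists_wave_circle (Φ : ℂ[X]) (r lam : ℝ) (hr : 0 < r) (n : ℕ) (hn : Φ.natDegree < n)
    (θ : ℝ) : (exists_wave_E Φ r lam n).eval (pt r θ) =
      Complex.exp ((θ : ℂ) * Complex.I) ^ n * ((lam - (Φ.eval (pt r θ)).re : ℝ) : ℂ) := by
  rw [exists_wave_E_eval]
  have hr' : (r : ℂ) ≠ 0 := by exact_mod_cast hr.ne'
  set w : ℂ := Complex.exp ((θ : ℂ) * Complex.I) with hw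
  have hz : (r : ℂ)⁻¹ * pt r θ = w := by
    unfold pt; rw [← mul_assoc, inv_mul_cancel₀ hr', one_mul]
  have hww : (starRingEnd ℂ) w * w = 1 := by
    rw [mul_comm, Complex.mul_conj, hw, Complex.normSq_eq_norm_sq, Complex.norm_exp_ofReal_mul_I]
    simp
  have hconj : ∑ l ∈ Finset.range (Φ.natDegree + 1),
      (starRingEnd ℂ) (Φ.coeff l) * (r : ℂ) ^ l * w ^ (n - l) =
      w ^ n * (starRingEnd ℂ) (Φ.eval (pt r θ)) := by
    rw [Polynomial.eval_eq_sum_range, map_sum, Finset.mul_sum]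
    refine Finset.sum_congr rfl fun l hl => ?_
    have hl' : l ≤ n := by
      have := Finset.mem_range.1 hl
      omega
    have h1 : w ^ n = w ^ (n - l) * w ^ l := by rw [← pow_add]; congr 1; omega
    have h2 : pt r θ = (r : ℂ) * w := rfl
    rw [h1, h2, map_mul, map_pow, map_mul, Complex.conj_ofReal, mul_pow]
    have h3 : (starRingEnd ℂ) w ^ l * w ^ l = 1 := by rw [← mul_pow, hww, one_pow]
    calc (starRingEnd ℂ) (Φ.coeff l) * (r : ℂ) ^ l * w ^ (n - l)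
        = (starRingEnd ℂ) (Φ.coeff l) * (r : ℂ) ^ l * w ^ (n - l) *
          ((starRingEnd ℂ) w ^ l * w ^ l) := by rw [h3, mul_one]
      _ = _ := by ring
  rw [hz, hconj]
  have hre : (((Φ.eval (pt r θ)).re : ℝ) : ℂ) =
      (Φ.eval (pt r θ) + (starRingEnd ℂ) (Φ.eval (pt r θ))) / 2 := by
    rw [Complex.add_conj]; push_cast; ring
  push_cast
  rw [hre]
  ring

theorem exists_wave_small (Φ : ℂ[X]) (r lam ρ : ℝ) (hρ : 0 ≤ ρ) (hρr : ρ < r) :
    ∃ K : ℝ, 0 ≤ K ∧ ∀ n : ℕ, Φ.natDegree < n → ∀ z : ℂ, ‖z‖ ≤ ρ →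
      ‖(exists_wave_E Φ r lam n).eval z‖ ≤ K * (ρ / r) ^ (n - Φ.natDegree) := by
  have hr : 0 < r := lt_of_le_of_lt hρ hρr
  have hq0 : 0 ≤ ρ / r := div_nonneg hρ hr.le
  have hq1 : ρ / r ≤ 1 := (div_le_one hr).2 hρr.le
  set B : ℝ := ∑ l ∈ Finset.range (Φ.natDegree + 1), ‖Φ.coeff l‖ * ρ ^ l with hB
  set D : ℝ := ∑ l ∈ Finset.range (Φ.natDegree + 1), ‖Φ.coeff l‖ * r ^ l with hD
  have hB0 : 0 ≤ B := Finset.sum_nonneg fun l _ => by positivity
  have hD0 : 0 ≤ D := Finset.sum_nonneg fun l _ => by positivity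
  refine ⟨|lam| + (B + D), by positivity, fun n hn z hz => ?_⟩
  rw [exists_wave_E_eval]
  have hw : ‖(r : ℂ)⁻¹ * z‖ ≤ ρ / r := by
    rw [norm_mul, norm_inv, Complex.norm_real, Real.norm_of_nonneg hr.le, div_eq_inv_mul]
    exact mul_le_mul_of_nonneg_left hz (inv_nonneg.2 hr.le)
  set w : ℂ := (r : ℂ)⁻¹ * z with hwdef
  have hwk : ∀ k : ℕ, n - Φ.natDegree ≤ k → ‖w ^ k‖ ≤ (ρ / r) ^ (n - Φ.natDegree) := by
    intro k hk
    rw [norm_pow]
    exact (pow_le_pow_left₀ (norm_nonneg _) hw k).trans (pow_le_pow_of_le_one hq0 hq1 hk)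
  have hQ : 0 ≤ (ρ / r) ^ (n - Φ.natDegree) := pow_nonneg hq0 _
  have hΦ : ‖Φ.eval z‖ ≤ B := by
    rw [Polynomial.eval_eq_sum_range]
    refine (norm_sum_le _ _).trans (Finset.sum_le_sum fun l _ => ?_)
    rw [norm_mul, norm_pow]
    exact mul_le_mul_of_nonneg_left (pow_le_pow_left₀ (norm_nonneg _) hz l) (norm_nonneg _)
  have hS : ‖∑ l ∈ Finset.range (Φ.natDegree + 1),
        (starRingEnd ℂ) (Φ.coeff l) * (r : ℂ) ^ l * w ^ (n - l)‖
      ≤ D * (ρ / r) ^ (n - Φ.natDegree) := by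
    rw [hD, Finset.sum_mul]
    refine (norm_sum_le _ _).trans (Finset.sum_le_sum fun l hl => ?_)
    have hl' : l ≤ Φ.natDegree := by
      have := Finset.mem_range.1 hl
      omega
    rw [norm_mul, norm_mul, RCLike.norm_conj, norm_pow, Complex.norm_real,
      Real.norm_of_nonneg hr.le]
    exact mul_le_mul_of_nonneg_left (hwk _ (by omega)) (by positivity)
  calc ‖(lam : ℂ) * w ^ n - (1 / 2) * (Φ.eval z * w ^ n
        + ∑ l ∈ Finset.range (Φ.natDegree + 1),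
          (starRingEnd ℂ) (Φ.coeff l) * (r : ℂ) ^ l * w ^ (n - l))‖
      ≤ ‖(lam : ℂ) * w ^ n‖ + ‖(1 / 2 : ℂ) * (Φ.eval z * w ^ n
        + ∑ l ∈ Finset.range (Φ.natDegree + 1),
          (starRingEnd ℂ) (Φ.coeff l) * (r : ℂ) ^ l * w ^ (n - l))‖ := norm_sub_le _ _
    _ ≤ |lam| * (ρ / r) ^ (n - Φ.natDegree) + (B * (ρ / r) ^ (n - Φ.natDegree)
          + D * (ρ / r) ^ (n - Φ.natDegree)) := by
        refine add_le_add ?_ ?_
        · rw [norm_mul, Complex.norm_real, Real.norm_eq_abs]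
          exact mul_le_mul_of_nonneg_left (hwk n (by omega)) (abs_nonneg _)
        · rw [norm_mul]
          have h12 : ‖(1 / 2 : ℂ)‖ ≤ 1 := by norm_num
          have h3 : ‖Φ.eval z * w ^ n + ∑ l ∈ Finset.range (Φ.natDegree + 1),
              (starRingEnd ℂ) (Φ.coeff l) * (r : ℂ) ^ l * w ^ (n - l)‖ ≤
              B * (ρ / r) ^ (n - Φ.natDegree) + D * (ρ / r) ^ (n - Φ.natDegree) := by
            refine (norm_add_le _ _).trans (add_le_add ?_ hS)
            rw [norm_mul]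
            exact mul_le_mul hΦ (hwk n (by omega)) (norm_nonneg _) hB0
          calc ‖(1 / 2 : ℂ)‖ * _ ≤ 1 * _ := mul_le_mul_of_nonneg_right h12 (norm_nonneg _)
            _ = _ := one_mul _
            _ ≤ _ := h3
    _ = (|lam| + (B + D)) * (ρ / r) ^ (n - Φ.natDegree) := by ring

/-- TARGET. A polynomial, tiny on `|z| ≤ ρ`, whose real part on the circle of radius `r` is
`(lam - Re Φ) * χ(nθ)`. -/
theorem exists_wave (Φ : ℂ[X]) (χ : ℝ → ℝ) (M : ℕ) (hχ : TP M (fun t => (χ t : ℂ)))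
    (hmean : (∫ t in (0:ℝ)..(2 * Real.pi), χ t) = 0) (r ρ : ℝ) (hρ : 0 ≤ ρ) (hρr : ρ < r)
    (lam ε : ℝ) (hε : 0 < ε) :
    ∃ n0 : ℕ, ∀ n : ℕ, n0 ≤ n → ∃ P : ℂ[X], P.eval 0 = 0 ∧
      (∀ z : ℂ, ‖z‖ ≤ ρ → ‖P.eval z‖ ≤ ε) ∧
      ∀ θ : ℝ, (P.eval (pt r θ)).re = (lam - (Φ.eval (pt r θ)).re) * χ (n * θ) := by
  obtain ⟨b, hb⟩ := exists_wave_b M χ hχ hmean
  obtain ⟨K, hK0, hK⟩ := exists_wave_small Φ r lam ρ hρ hρr
  have hr : 0 < r := lt_of_le_of_lt hρ hρr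
  have hr' : (r : ℂ) ≠ 0 := by exact_mod_cast hr.ne'
  have hq0 : 0 ≤ ρ / r := div_nonneg hρ hr.le
  have hq1 : ρ / r < 1 := (div_lt_one hr).2 hρr
  set S : ℝ := ∑ m ∈ Finset.range M, ‖b m‖ with hS
  have hS0 : 0 ≤ S := Finset.sum_nonneg fun m _ => norm_nonneg _
  have hlim : Tendsto (fun k : ℕ => S * (K * (ρ / r) ^ k)) atTop (𝓝 0) := by
    have := ((tendsto_pow_atTop_nhds_zero_of_lt_one hq0 hq1).const_mul K).const_mul S
    simpa using this
  obtain ⟨N, hN⟩ := (hlim.eventually_lt_const hε).exists_forall_of_atTop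
  refine ⟨N + Φ.natDegree + 1, fun n hn => ?_⟩
  refine ⟨∑ m ∈ Finset.range M, C (b m) * (C ((r : ℂ)⁻¹) * X) ^ (m * n) * exists_wave_E Φ r lam n,
    ?_, ?_, ?_⟩
  · have hE : (exists_wave_E Φ r lam n).eval 0 = 0 := by
      rw [exists_wave_E_eval]
      have h1 : ((r : ℂ)⁻¹ * 0) ^ n = 0 := by
        rw [mul_zero]; exact zero_pow (by omega)
      rw [h1, Finset.sum_eq_zero]
      · simp
      · intro l hl
        have hl' := Finset.mem_range.1 hl
        rw [mul_zero, zero_pow (by omega), mul_zero]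
    simp only [eval_finsetSum, eval_mul, hE, mul_zero, Finset.sum_const_zero]
  · intro z hz
    have hE := hK n (by omega) z hz
    have hw : ‖(r : ℂ)⁻¹ * z‖ ≤ 1 := by
      rw [norm_mul, norm_inv, Complex.norm_real, Real.norm_of_nonneg hr.le, ← div_eq_inv_mul]
      exact (div_le_one hr).2 (hz.trans hρr.le)
    rw [eval_finsetSum]
    refine (norm_sum_le _ _).trans ?_
    have hE0 : 0 ≤ K * (ρ / r) ^ (n - Φ.natDegree) := by positivity
    have h1 : ∀ m ∈ Finset.range M, ‖(C (b m) * (C ((r : ℂ)⁻¹) * X) ^ (m * n) *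
        exists_wave_E Φ r lam n).eval z‖ ≤ ‖b m‖ * (K * (ρ / r) ^ (n - Φ.natDegree)) := by
      intro m _
      simp only [eval_mul, eval_pow, eval_C, eval_X]
      rw [norm_mul, norm_mul, norm_pow]
      have h2 : ‖b m‖ * ‖(r : ℂ)⁻¹ * z‖ ^ (m * n) ≤ ‖b m‖ * 1 :=
        mul_le_mul_of_nonneg_left (pow_le_one₀ (norm_nonneg _) hw) (norm_nonneg _)
      rw [mul_one] at h2
      exact mul_le_mul h2 hE (norm_nonneg _) (norm_nonneg _)
    refine (Finset.sum_le_sum h1).trans ?_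
    rw [← Finset.sum_mul]
    exact (hN (n - Φ.natDegree) (by omega)).le
  · intro θ
    have hz : (r : ℂ)⁻¹ * pt r θ = Complex.exp ((θ : ℂ) * Complex.I) := by
      unfold pt; rw [← mul_assoc, inv_mul_cancel₀ hr', one_mul]
    simp only [eval_finsetSum, eval_mul, eval_pow, eval_C, eval_X, hz,
      exists_wave_circle Φ r lam hr n (by omega) θ]
    rw [hb ((n : ℝ) * θ)]
    have h1 : ∑ m ∈ Finset.range M, b m * Complex.exp ((θ : ℂ) * Complex.I) ^ (m * n) *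
        (Complex.exp ((θ : ℂ) * Complex.I) ^ n * ((lam - (Φ.eval (pt r θ)).re : ℝ) : ℂ)) =
        ((lam - (Φ.eval (pt r θ)).re : ℝ) : ℂ) * ∑ m ∈ Finset.range M,
          b m * Complex.exp ((((n : ℝ) * θ : ℝ) : ℂ) * Complex.I) ^ (m + 1) := by
      rw [Finset.mul_sum]
      refine Finset.sum_congr rfl fun m _ => ?_
      have h2 : Complex.exp ((((n : ℝ) * θ : ℝ) : ℂ) * Complex.I) =
          Complex.exp ((θ : ℂ) * Complex.I) ^ n := by
        rw [← Complex.exp_nat_mul]; congr 1; push_cast; ring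
      rw [h2, ← pow_mul]
      ring
    rw [h1, Complex.re_ofReal_mul]

end Pool.Agent.Helper265.WI.Wave
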