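import Mathlib
import Pool.Agent.Helper265.WI.Base
import Pool.Agent.Helper265.WI.Bumps
import Pool.Agent.Helper265.WI.OneStep
import Pool.Agent.Helper265.WI.Wave
set_option autoImplicit false
open MeasureTheory Polynomial Filter Topology

namespace Pool.Agent.Helper265.WI.Step
open Pool.Agent.Helper265.WI.Bumps
open Pool.Agent.Helper265.WI.OneStep
open Pool.Agent.Helper265.WI.Wave

theorem st_cont (M : ℕ) (a : ℝ → ℝ) (ha : TP M (fun t => (a t : ℂ))) : Continuous a := by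
  obtain ⟨c, hc⟩ := ha
  have h1 : a = fun t : ℝ => (∑ m ∈ Finset.Icc (-(M : ℤ)) (M : ℤ),
      c m * Complex.exp ((m : ℂ) * (t : ℂ) * Complex.I)).re := by
    funext t
    rw [← hc t, Complex.ofReal_re]
  rw [h1]
  fun_prop

/-- TARGET. -/
theorem step (r ρ : ℝ) (hρ : 0 ≤ ρ) (hρr : ρ < r) (hr1 : r < 1) (Φ : ℂ[X]) (N : ℕ)
    (ε : ℝ) (hε : 0 < ε) :
    ∃ (lam : ℝ) (a : ℝ → ℝ) (N' : ℕ) (Φ' : ℂ[X]), 0 ≤ lam ∧ Continuous a ∧
      Φ'.eval 0 = Φ.eval 0 ∧
      (∀ z : ℂ, ‖z‖ ≤ ρ → ‖Φ'.eval z - Φ.eval z‖ ≤ ε) ∧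
      (∀ θ : ℝ, |(Φ'.eval (pt r θ)).re| ≤ lam) ∧
      (∀ θ : ℝ, (a θ) ^ 2 * Real.exp (2 * lam) ≤
        Real.exp 2 * Real.exp (2 * (Φ'.eval (pt r θ)).re)) ∧
      (∀ q : ℂ[X], V N r q ≤
        Real.sqrt (mean (fun θ => (a θ) ^ 2 * ‖q.eval (pt r θ)‖ ^ 2)) + kap * V N' r q) := by
  have hr0 : 0 < r := lt_of_le_of_lt hρ hρr
  obtain ⟨K, hK⟩ := (isCompact_closedBall (0 : ℂ) 1).exists_bound_of_continuousOn
    (f := fun z => Φ.eval z) Φ.continuous.continuousOn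
  have hK0 : 0 ≤ K := (norm_nonneg _).trans (hK 0 (by simp))
  have hnpt : ∀ θ, ‖pt r θ‖ = r := by
    intro θ
    unfold pt
    rw [norm_mul, Complex.norm_exp_ofReal_mul_I, mul_one, Complex.norm_real, Real.norm_eq_abs,
      abs_of_pos hr0]
  have hKr : ∀ θ, |(Φ.eval (pt r θ)).re| ≤ K := by
    intro θ
    refine (Complex.abs_re_le_norm _).trans (hK _ ?_)
    rw [mem_closedBall_zero_iff, hnpt]
    exact hr1.le
  obtain ⟨lam, hlam⟩ : ∃ lam : ℝ, lam = 7 * K + 1 := ⟨_, rfl⟩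
  have hlam0 : 0 < lam := by linarith
  obtain ⟨η, hη⟩ : ∃ η : ℝ, η = Real.exp (-(2 * lam)) := ⟨_, rfl⟩
  have hη0 : 0 < η := hη ▸ Real.exp_pos _
  have hη1 : 2 * lam * η ≤ 1 := by
    have h1 : 2 * lam ≤ Real.exp (2 * lam) := by
      have := Real.add_one_le_exp (2 * lam)
      linarith
    calc 2 * lam * η ≤ Real.exp (2 * lam) * η := mul_le_mul_of_nonneg_right h1 hη0.le
      _ = 1 := by rw [hη, ← Real.exp_add]; simp
  obtain ⟨M, χ, a, hχT, haT, hχm, hχb, hab, haI, hχa⟩ := exists_bumps η hη0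
  obtain ⟨n0, hn0⟩ := exists_wave Φ χ M hχT hχm r ρ hρ hρr lam ε hε
  obtain ⟨n, hnn⟩ : ∃ n : ℕ, n = max n0 N + 1 := ⟨_, rfl⟩
  have hnn0 : n0 ≤ n := by omega
  have hnN : N ≤ n := by omega
  have hnpos : 0 < n := by omega
  obtain ⟨P, hP0, hPs, hPw⟩ := hn0 n hnn0
  have hval : ∀ θ, ((Φ + P).eval (pt r θ)).re =
      lam - (lam - (Φ.eval (pt r θ)).re) * (1 - χ (n * θ)) := by
    intro θ
    rw [eval_add, Complex.add_re, hPw]
    ring
  have hlow : ∀ θ, -lam ≤ ((Φ + P).eval (pt r θ)).re := by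
    intro θ
    rw [hval]
    obtain ⟨h1, h2⟩ := abs_le.1 (hKr θ)
    obtain ⟨h3, h4⟩ := hχb (n * θ)
    have h5 : (lam - (Φ.eval (pt r θ)).re) * (1 - χ (n * θ)) ≤ (lam + K) * (7 / 4) :=
      mul_le_mul (by linarith) (by linarith) (by linarith) (by linarith)
    linarith
  have hup : ∀ θ, ((Φ + P).eval (pt r θ)).re ≤ lam := by
    intro θ
    rw [hval]
    obtain ⟨h1, h2⟩ := abs_le.1 (hKr θ)
    obtain ⟨h3, h4⟩ := hχb (n * θ)
    have h5 : 0 ≤ (lam - (Φ.eval (pt r θ)).re) * (1 - χ (n * θ)) :=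
      mul_nonneg (by linarith) (by linarith)
    linarith
  refine ⟨lam, fun θ => a (n * θ), N + M * n, Φ + P, hlam0.le, ?_, ?_, ?_, ?_, ?_, ?_⟩
  · exact (st_cont M a haT).comp (continuous_const.mul continuous_id)
  · rw [eval_add, hP0, add_zero]
  · intro z hz
    rw [eval_add, add_sub_cancel_left]
    exact hPs z hz
  · intro θ
    exact abs_le.2 ⟨hlow θ, hup θ⟩
  · intro θ
    obtain ⟨ha0, ha1⟩ := hab (n * θ)
    change a (n * θ) ^ 2 * Real.exp (2 * lam) ≤ _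
    rw [← Real.exp_add]
    rcases hχa (n * θ) with h | h
    · have h1 : lam - 1 ≤ ((Φ + P).eval (pt r θ)).re := by
        rw [hval]
        obtain ⟨h1, h2⟩ := abs_le.1 (hKr θ)
        obtain ⟨h3, h4⟩ := hχb (n * θ)
        have h5 : (lam - (Φ.eval (pt r θ)).re) * (1 - χ (n * θ)) ≤ (2 * lam) * η :=
          mul_le_mul (by linarith) (by linarith) (by linarith) (by linarith)
        linarith
      calc a (n * θ) ^ 2 * Real.exp (2 * lam) ≤ 1 * Real.exp (2 * lam) := by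
            refine mul_le_mul_of_nonneg_right ?_ (Real.exp_pos _).le
            exact pow_le_one₀ ha0 ha1
        _ ≤ _ := by
            rw [one_mul]
            exact Real.exp_le_exp.2 (by linarith)
    · have h1 := hlow θ
      have h2 : a (n * θ) ^ 2 ≤ η ^ 2 := pow_le_pow_left₀ ha0 h 2
      calc a (n * θ) ^ 2 * Real.exp (2 * lam) ≤ η ^ 2 * Real.exp (2 * lam) :=
            mul_le_mul_of_nonneg_right h2 (Real.exp_pos _).le
        _ = Real.exp (-(2 * lam)) := by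
            rw [hη, sq, ← Real.exp_add, ← Real.exp_add]
            congr 1
            ring
        _ ≤ _ := Real.exp_le_exp.2 (by linarith)
  · intro q
    exact one_step a M haT hab haI N n (N + M * n) hnpos hnN le_rfl r hr0 q

end Pool.Agent.Helper265.WI.Step
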