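import Mathlib
import Pool.Agent.Helper265.WI.Base
import Pool.Agent.Helper265.WI.Step
set_option autoImplicit false
open MeasureTheory Polynomial Filter Topology

namespace Pool.Agent.Helper265.WI.Seq
open Pool.Agent.Helper265.WI.Step

/-- TARGET. Iteration of `step` with `r = rr k`, `ρ = 1 - (1/2)^k`. -/
theorem exists_seq (Lam : ℝ) :
    ∃ (Φ : ℕ → ℂ[X]) (lam : ℕ → ℝ) (a : ℕ → ℝ → ℝ) (N : ℕ → ℕ),
      Φ 0 = C (-(Lam : ℂ)) ∧ N 0 = 1 ∧ ∀ k : ℕ, 0 ≤ lam k ∧ Continuous (a k) ∧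
      (Φ (k + 1)).eval 0 = (Φ k).eval 0 ∧
      (∀ z : ℂ, ‖z‖ ≤ 1 - (1 / 2) ^ k → ‖(Φ (k + 1)).eval z - (Φ k).eval z‖ ≤ (1 / 2) ^ (k + 1)) ∧
      (∀ θ : ℝ, |((Φ (k + 1)).eval (pt (rr k) θ)).re| ≤ lam k) ∧
      (∀ θ : ℝ, (a k θ) ^ 2 * Real.exp (2 * lam k) ≤
        Real.exp 2 * Real.exp (2 * ((Φ (k + 1)).eval (pt (rr k) θ)).re)) ∧
      (∀ q : ℂ[X], V (N k) (rr k) q ≤
        Real.sqrt (mean (fun θ => (a k θ) ^ 2 * ‖q.eval (pt (rr k) θ)‖ ^ 2))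
          + kap * V (N (k + 1)) (rr k) q) := by
  have hp : ∀ k : ℕ, (0 : ℝ) < (1 / 2) ^ k := fun k => by positivity
  have h1 : ∀ k : ℕ, (0 : ℝ) ≤ 1 - (1 / 2) ^ k := fun k => by
    have : ((1 : ℝ) / 2) ^ k ≤ 1 := pow_le_one₀ (by norm_num) (by norm_num)
    linarith
  have h2 : ∀ k : ℕ, (1 : ℝ) - (1 / 2) ^ k < rr k := fun k => by
    unfold rr
    have := hp k
    rw [pow_succ]
    linarith
  have h3 : ∀ k : ℕ, rr k < 1 := fun k => by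
    unfold rr
    have := hp (k + 1)
    linarith
  choose lam a N' Φ' h using fun (k : ℕ) (s : ℂ[X] × ℕ) =>
    step (rr k) (1 - (1 / 2) ^ k) (h1 k) (h2 k) (h3 k) s.1 s.2 ((1 / 2) ^ (k + 1)) (hp (k + 1))
  let s : ℕ → ℂ[X] × ℕ := fun k => Nat.rec (C (-(Lam : ℂ)), 1) (fun k s => (Φ' k s, N' k s)) k
  refine ⟨fun k => (s k).1, fun k => lam k (s k), fun k => a k (s k), fun k => (s k).2, rfl, rfl,
    fun k => ?_⟩
  exact h k (s k)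

end Pool.Agent.Helper265.WI.Seq
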