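import Mathlib
import Pool.Agent.Helper265.WI.Base
import Pool.Agent.Helper265.WI.Seq
import Pool.Agent.Helper265.WI.LimitF
import Pool.Agent.Helper265.WI.EvalBound
import Pool.Agent.Helper265.WI.Half
import Pool.Agent.Helper265.WI.NotWI
set_option autoImplicit false
open MeasureTheory Polynomial Filter Topology

namespace Pool.Agent.Helper265.WI.Main

open Pool.Agent.Helper265.WI

theorem exists_F (Lam : ℝ) : ∃ (F : ℂ → ℂ) (lam : ℕ → ℝ),
    DifferentiableOn ℂ F (Metric.ball 0 1) ∧ F 0 = -(Lam : ℂ) ∧ (∀ k, 0 ≤ lam k) ∧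
    (∀ k, ∀ z : ℂ, ‖z‖ ≤ rr k → |(F z).re| ≤ lam k + 1) ∧
    ∀ (q : ℂ[X]) (S : ℝ),
      (∀ K : ℕ, ∑ k ∈ Finset.range K, kap ^ k * Real.exp (-2 * lam k) *
        mean (fun θ => ‖q.eval (pt (rr k) θ) * Complex.exp (F (pt (rr k) θ))‖ ^ 2) ≤ S) →
      ‖q.eval 0‖ ≤ Real.exp 2 * Real.sqrt (S / (1 - kap)) := by
  obtain ⟨Φ, lam, a, N, h0, hN, h⟩ := Seq.exists_seq Lam
  obtain ⟨F, hF, hF0, hc, hre⟩ := LimitF.limit_F Φ lam (fun k => (h k).2.2.1)
    (fun k => (h k).2.2.2.1) (fun k => (h k).2.2.2.2.1)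
  refine ⟨F, lam, hF, ?_, fun k => (h k).1, hre, ?_⟩
  · rw [hF0, h0]; simp
  · intro q S hS
    exact EvalBound.eval_bound F hF Φ lam a N hN (fun k => (h k).2.1) hc
      (fun k => (h k).2.2.2.2.2.1) (fun k => (h k).2.2.2.2.2.2) q S hS

/-- There are a symmetric measure `μ` (with radial part `ν`) and zero-free `f = g²` with
`f, 1/f ∈ E²(μ)`, `g` weakly invertible and `f` not weakly invertible. -/
theorem main : ∃ (ν : Measure ℝ) (g : ℂ → ℂ), IsRadialPart ν ∧ (∀ z, g z ≠ 0) ∧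
    WeaklyInvertible 2 ν g ∧
    MemE 2 ν (fun z => g z * g z) ∧ MemE 2 ν (fun z => (g z * g z)⁻¹) ∧
    ¬ WeaklyInvertible 2 ν (fun z => g z * g z) := by
  set Lam : ℝ := Real.log (8 * Real.exp 2 / (1 - kap)) with hLam
  have hk1 : 0 < 1 - kap := by linarith [Kap.kap_lt_one]
  have hk0 := Kap.kap_pos
  have hLam' : 4 * Real.exp 2 / (1 - kap) < Real.exp Lam := by
    rw [hLam, Real.exp_log (by positivity)]
    apply (div_lt_div_iff_of_pos_right hk1).mpr
    nlinarith [Real.exp_pos 2]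
  obtain ⟨F, lam, hF, hF0, hlam, hre, hb⟩ := exists_F Lam
  have hw : ∀ k, 0 < kap ^ k * Real.exp (-2 * lam k) := fun k => by positivity
  have hs : Summable (fun k => kap ^ k * Real.exp (-2 * lam k)) := by
    refine Summable.of_nonneg_of_le (fun k => (hw k).le) (fun k => ?_)
      (summable_geometric_of_lt_one hk0.le Kap.kap_lt_one)
    have : Real.exp (-2 * lam k) ≤ 1 := by
      rw [Real.exp_le_one_iff]; linarith [hlam k]
    calc kap ^ k * Real.exp (-2 * lam k) ≤ kap ^ k * 1 :=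
          mul_le_mul_of_nonneg_left this (by positivity)
      _ = kap ^ k := mul_one _
  have hg : (fun z => Complex.exp (F z / 2) * Complex.exp (F z / 2))
      = fun z => Complex.exp (F z) := by
    funext z
    rw [← Complex.exp_add]; congr 1; ring
  have hgi : (fun z => (Complex.exp (F z / 2) * Complex.exp (F z / 2))⁻¹)
      = fun z => Complex.exp (-F z) := by
    funext z
    rw [← Complex.exp_add, ← Complex.exp_neg]; congr 1; ring
  refine ⟨nu (fun k => kap ^ k * Real.exp (-2 * lam k)), fun z => Complex.exp (F z / 2),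
    Norm.nu_radial _ hw hs, fun z => Complex.exp_ne_zero _, Half.wi_half F hF lam hlam hre, ?_, ?_, ?_⟩
  · rw [hg]; exact (Half.memE_exp F hF lam hlam hre).1
  · rw [hgi]; exact (Half.memE_exp F hF lam hlam hre).2
  · rw [hg]; exact NotWI.not_wi Lam hLam' F hF hF0 lam hlam hb

end Pool.Agent.Helper265.WI.Main
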